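import Pool.Agent.Lib.MP_ae0f86_nt.Pairs

/-!
# MP_ae0f86_nt : some algebraic sets
-/

open MvPolynomial

namespace Pool.Agent.Lib.MP_ae0f86_nt

variable {k : Type} [Field k]

/-- The flows with values in the four-vectors are an algebraic set. -/
theorem IsAlg.flows {V E : Type} [Fintype E] [DecidableEq V] (src tgt : E → V) :
    IsAlg {z : E × Fin 4 → k | ∀ (j : Fin 4) (v : V),
      (∑ e, if tgt e = v then z (e, j) else 0) = ∑ e, if src e = v then z (e, j) else 0} := by
  have h : IsAlg {z : E × Fin 4 → k | ∀ p : V × Fin 4,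
      eval z ((∑ e, if tgt e = p.1 then MvPolynomial.X (e, p.2) else 0) -
        ∑ e, if src e = p.1 then MvPolynomial.X (e, p.2) else 0) = 0} := IsAlg.zeros _
  refine (congrArg IsAlg ?_).mpr h
  ext z
  have key : ∀ (f : E → V) (v : V) (j : Fin 4),
      eval z (∑ e, if f e = v then MvPolynomial.X (e, j) else (0 : MvPolynomial _ k)) =
        ∑ e, if f e = v then z (e, j) else 0 := fun f v j => by
    rw [map_sum]
    exact Finset.sum_congr rfl fun e _ => by split_ifs <;> simp
  constructor
  · rintro h ⟨v, j⟩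
    rw [map_sub, key, key, sub_eq_zero]
    exact h j v
  · intro h j v
    have := h (v, j)
    rw [map_sub, key, key, sub_eq_zero] at this
    exact this

/-- The complement in an algebraic set of finitely many hypersurfaces. -/
theorem IsAlg.compl {ι κ : Type} [Fintype κ] {X : Set (ι → k)} (hX : IsAlg X)
    (g : κ → MvPolynomial ι k) : IsAlg {z : ι ⊕ Unit → k | z ∘ Sum.inl ∈ X ∧
      z (Sum.inr ()) * ∏ e, eval (z ∘ Sum.inl) (g e) = 1} := by
  have h := (hX.cyl (κ := Unit)).inter
    (IsAlg.zero (MvPolynomial.X (Sum.inr ()) * ∏ e, rename Sum.inl (g e) - 1 :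
      MvPolynomial (ι ⊕ Unit) k))
  refine (congrArg IsAlg ?_).mpr h
  ext z
  simp [sub_eq_zero, eval_rename, map_prod]

/-- The complement in affine space of finitely many hypersurfaces. -/
theorem IsAlg.compl' {ι κ : Type} [Fintype κ] (g : κ → MvPolynomial ι k) :
    IsAlg {z : ι ⊕ Unit → k | z (Sum.inr ()) * ∏ e, eval (z ∘ Sum.inl) (g e) = 1} := by
  refine (congrArg IsAlg ?_).mpr (IsAlg.compl IsAlg.univ g)
  ext z
  simp

end Pool.Agent.Lib.MP_ae0f86_nt
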