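import Pool.Agent.Lib.MP_ae0f86_nt.Periods
import Pool.Agent.Lib.MP_ae0f86_nt.F.AlgTools

/-!
# MP_ae0f86_nt : Artin vanishing and the Lefschetz theorem, Feynman graphs, arrangements
-/

open CategoryTheory CategoryTheory.Limits MvPolynomial Opposite MonoidalCategory

universe v u

namespace Pool.Agent.Lib.MP_ae0f86_nt

noncomputable section

attribute [local instance] CategoryTheory.Abelian.hasFiniteBiproducts

/-! ### smooth complete intersections -/

section CI

variable {k : Type} [Field k]

/-- The common zero set of the polynomials in the list `l`. -/
def zs {ι : Type} (l : List (MvPolynomial ι k)) : Set (ι → k) := {x | ∀ f ∈ l, eval x f = 0}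

theorem zs_alg {ι : Type} (l : List (MvPolynomial ι k)) : IsAlg (zs l) := ⟨{f | f ∈ l}, rfl⟩

theorem zs_anti {ι : Type} {l m : List (MvPolynomial ι k)} (h : l ⊆ m) : zs m ⊆ zs l :=
  fun _ hx f hf => hx f (h hf)

/-- The polynomials `f ∈ l` define a smooth complete intersection: at each common zero their
gradients are linearly independent (so `zs l` is smooth of dimension `|ι| - |l|`). -/
def SmoothCI {ι : Type} (l : List (MvPolynomial ι k)) : Prop :=
  ∀ x ∈ zs l, LinearIndependent k fun a : Fin l.length => grad x (l.get a)

/-- The triple `(X, X ∩ {t = 0}, ∅)` with `X = zs l`. -/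
def sec {ι : Type} [Finite ι] (l : List (MvPolynomial ι k)) (t : MvPolynomial ι k) :
    AffTriple k :=
  ⟨ι, inferInstance, zs l, zs (l ++ [t]), ∅, zs_alg _, zs_alg _, IsAlg.empty,
    zs_anti (List.subset_append_left l [t]), Set.empty_subset _⟩

end CI

/-- A motivic cohomology theory with Artin vanishing and the Lefschetz hyperplane theorem.

For `k` the field of algebraic numbers and `A` the category of Nori motives over `k` both are
known (but not formalised here): the Betti realisation is exact and faithful, hence reflects zero
objects and monomorphisms, and for the singular cohomology of complex varieties `artin` is the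
theorem of Andreotti and Frankel (a smooth affine variety of dimension `d` has the homotopy type
of a CW complex of dimension `d`) and `lefschetz` is the Lefschetz hyperplane theorem for smooth
quasi-projective varieties and generic hyperplanes (Hamm, Lê; Goresky, MacPherson; a non-empty
open set of hyperplanes contains hyperplanes with integer coefficients). -/
structure CohTheoryL (k : Type) [Field k] (A : Type u) [Category.{v} A] [Abelian A]
    [MonoidalCategory A] extends CohTheory k A where
  /-- `h^i(X) = 0` for a smooth affine complete intersection `X` and `i > dim X` -/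
  artin : ∀ (i : ℤ) {ι : Type} [Finite ι] (l : List (MvPolynomial ι k)), SmoothCI l →
    (Nat.card ι : ℤ) - l.length < i → IsZero (Obj (h i) (AffPair.abs (zs_alg l)))
  /-- for a smooth affine complete intersection `X` and `i < dim X` there is a hyperplane `t = 0`
  with integer coefficients, transversal to `X`, such that `h^i(X) → h^i(X ∩ {t = 0})` is a
  monomorphism -/
  lefschetz : ∀ (i : ℤ) {ι : Type} [Finite ι] (l : List (MvPolynomial ι k)), SmoothCI l →
    i < (Nat.card ι : ℤ) - l.length → ∃ t : MvPolynomial ι ℤ, t.totalDegree ≤ 1 ∧
      SmoothCI (l ++ [MvPolynomial.map (Int.castRingHom k) t]) ∧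
      Mono (Map (h i) (sec l (MvPolynomial.map (Int.castRingHom k) t)).incl)

/-! ### Feynman graphs -/

/-- The square `x^2 = x_0 x_1 + x_2 x_3` of a four-vector (over an algebraically closed field of
characteristic zero it is equivalent to the sum of four squares). -/
abbrev sq {R : Type} [CommRing R] (x : Fin 4 → R) : R := x 0 * x 1 + x 2 * x 3

/-- A massless Feynman graph in four dimensions with integral external momenta: a finite directed
graph (multiple edges are allowed); the momentum `a e ∈ ℤ^4` is the part of the external momenta
that flows through the edge `e` (the external momentum at the vertex `v` is the sum of the `a e`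
over the edges that end in `v`, minus the sum of the `a e` over the edges that begin in `v`). -/
structure Feynman : Type 1 where
  /-- the vertices -/
  V : Type
  /-- the edges (propagators) -/
  E : Type
  finV : Fintype V
  finE : Fintype E
  decV : DecidableEq V
  /-- the beginning of an edge -/
  src : E → V
  /-- the end of an edge -/
  tgt : E → V
  /-- the external momenta, distributed over the edges -/
  a : E → Fin 4 → ℤ

namespace Feynman

attribute [instance] Feynman.finV Feynman.finE Feynman.decV

variable (G : Feynman)

/-- `c` is a flow on the graph (a cycle): conservation at each vertex. -/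
def Conserved {R : Type} [AddCommMonoid R] (c : G.E → R) : Prop :=
  ∀ v : G.V, (∑ e, if G.tgt e = v then c e else 0) = ∑ e, if G.src e = v then c e else 0

/-- The number of loops (the first Betti number of the graph): the dimension of the space of the
rational flows. -/
def loops : ℕ := Module.finrank ℚ (Submodule.span ℚ {c : G.E → ℚ | G.Conserved c})

/-- The graph is one-particle irreducible: it is connected (and not empty), and each edge lies on
a cycle (there is no bridge). -/
structure Irreducible : Prop where
  connected : ∃ r : G.V, ∀ v, Relation.EqvGen (fun v w => ∃ e, G.src e = v ∧ G.tgt e = w) r v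
  bridgeless : ∀ e : G.E, ∃ c : G.E → ℚ, G.Conserved c ∧ c e ≠ 0

variable (k : Type) [Field k]

/-- The loop momentum space: the flows `(k_e)` with values in the four-vectors. -/
def momenta : Set (G.E × Fin 4 → k) := {z | ∀ j : Fin 4, G.Conserved fun e => z (e, j)}

/-- The denominator `(k_e + a_e)^2` of the propagator `e`. -/
def den (e : G.E) : MvPolynomial (G.E × Fin 4) k :=
  sq (fun j => MvPolynomial.X (e, j) + MvPolynomial.C (G.a e j : k))

/-- The maximal cut: the flows with `(k_e + a_e)^2 = 0` for all `e`. -/
def cutSet : Set (G.E × Fin 4 → k) := {z | z ∈ G.momenta k ∧ ∀ e, eval z (G.den k e) = 0}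

/-- The flows with `(k_e + a_e)^2 ≠ 0` for all `e`, with the inverse of the product of the
denominators as a further coordinate. -/
def complSet : Set (G.E × Fin 4 ⊕ Unit → k) :=
  {z | z ∘ Sum.inl ∈ G.momenta k ∧ z (Sum.inr ()) * ∏ e, eval (z ∘ Sum.inl) (G.den k e) = 1}

theorem momenta_alg : IsAlg (G.momenta k) := IsAlg.flows G.src G.tgt

theorem cutSet_alg : IsAlg (G.cutSet k) := (G.momenta_alg k).inter (IsAlg.zeros (G.den k))

theorem complSet_alg : IsAlg (G.complSet k) := (G.momenta_alg k).compl (G.den k)

/-- The maximal cut of `G`, as a pair `(V, ∅)`. -/
def cut : AffPair k := AffPair.abs (G.cutSet_alg k)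

/-- The complement of the propagators in the loop momentum space of `G`, as a pair `(U, ∅)`. -/
def compl : AffPair k := AffPair.abs (G.complSet_alg k)

end Feynman

/-- The object `h^(4b)(U)`, where `b` is the number of loops of `G` and `U` is the complement of the
propagators in the `4b`-dimensional loop momentum space. -/
def Feynman.top {A : Type u} [Category.{v} A] [Abelian A] [MonoidalCategory A]
    (T : CohTheory QBar A) (G : Feynman) : A := (T.h (4 * G.loops)).obj (op (G.compl QBar))

/-! ### arrangements -/

/-- One of the hypersurfaces `w_i + w_j = w_l + d` and `w_i w_j = w_l + d`, with `d ∈ {0, 1}`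
(`i`, `j`, `l` need not be different, so that `w_i = d` is a special case). -/
structure Wall (Λ : Type) where
  /-- `true` for the product, `false` for the sum -/
  mul : Bool
  /-- the variables -/
  i : Λ
  j : Λ
  l : Λ
  /-- `true` for `d = 1`, `false` for `d = 0` -/
  d : Bool

/-- The equation of the hypersurface. -/
def Wall.poly {Λ : Type} (c : Wall Λ) (R : Type) [CommRing R] : MvPolynomial Λ R :=
  (if c.mul then X c.i * X c.j else X c.i + X c.j) - X c.l - (if c.d then 1 else 0)

/-- The complement in affine `n`-space of the hypersurfaces `c a`, `a < r`. -/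
def wallSet (k : Type) [Field k] {n r : ℕ} (c : Fin r → Wall (Fin n)) : Set (Fin n ⊕ Unit → k) :=
  {z | z (Sum.inr ()) * ∏ a, eval (z ∘ Sum.inl) ((c a).poly k) = 1}

theorem wallSet_alg (k : Type) [Field k] {n r : ℕ} (c : Fin r → Wall (Fin n)) :
    IsAlg (wallSet k c) := IsAlg.compl' fun a => (c a).poly k

/-- The complement of the arrangement, as a pair `(U, ∅)`. -/
def wallPair (k : Type) [Field k] {n r : ℕ} (c : Fin r → Wall (Fin n)) : AffPair k :=
  AffPair.abs (wallSet_alg k c)

section Statements

variable {A : Type u} [Category.{v} A] [Abelian A] [MonoidalCategory A]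

/-- The property `P` holds for `h^(4b)(U)`, for all one-particle irreducible massless Feynman
graphs with integral external momenta. -/
def ForFeynman (T : CohTheory QBar A) (P : A → Prop) : Prop :=
  ∀ G : Feynman, G.Irreducible → P (G.top T)

/-- The property `P` holds for `h^i(V)`, for all these graphs and all `i`, where `V` is the
maximal cut. -/
def ForCuts (T : CohTheory QBar A) (P : A → Prop) : Prop :=
  ∀ G : Feynman, G.Irreducible → ∀ i : ℤ, P ((T.h i).obj (op (G.cut QBar)))

/-- The property `P` holds for `h^n(U)`, for all complements `U` in affine `n`-space of finitely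
many hypersurfaces of the form `w_i + w_j = w_l + d` or `w_i w_j = w_l + d`, `d ∈ {0, 1}`. -/
def ForWalls (T : CohTheory QBar A) (P : A → Prop) : Prop :=
  ∀ (n r : ℕ) (c : Fin r → Wall (Fin n)), P ((T.h n).obj (op (wallPair QBar c)))

end Statements

end

end Pool.Agent.Lib.MP_ae0f86_nt
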