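import Pool.Agent.Lib.MP_ae0f86_nt.Main
import Pool.Agent.Lib.MP_ae0f86_nt.F.Defs

/-!
# MP_ae0f86_nt, project FEYNMAN: the period conjecture for a class of objects that dominates `A`
-/

open CategoryTheory CategoryTheory.Limits Opposite MonoidalCategory

universe v u

namespace Pool.Agent.Lib.MP_ae0f86_nt.F

attribute [local instance] CategoryTheory.Abelian.hasFiniteBiproducts

variable {A : Type u} [Category.{v} A] [Abelian A] [Linear ℚ A] [MonoidalCategory A]
  [MonoidalPreadditive A] [SymmetricCategory A] [RigidCategory A]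
  {HdR : A ⥤ ModuleCat.{0} QBar} {HB : A ⥤ ModuleCat.{0} ℚ} [FibreFunctor HdR]
  [FibreFunctor HB] (c : Comparison HdR HB)

/-- If every object has a twist by a power of `L` which is a subquotient of an object of the class
`𝒲`, then the period conjecture, and each of its two linear forms, may be tested on the class. -/
theorem classTFAE (L L' : A) (hL : L ⊗ L' ≅ 𝟙_ A) (𝒲 : A → Prop)
    (h𝒲 : ∀ N : A, ∃ (e : ℕ) (W : A), 𝒲 W ∧ IsSubquot (N ⊗ tpow L e) W) : List.TFAE [
    ∀ M : A, PeriodConjecture c M,
    EvInjective c,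
    ∀ W, 𝒲 W → PeriodConjecture c W,
    ∀ W, 𝒲 W → PeriodDimension c W,
    ∀ W, 𝒲 W → VanishTrivially c W] := by
  rw [evInjective_iff]
  have subq : S_subq A := p_subq
  have subsum : S_subsum A := p_subsum subq
  have genclosed : S_genclosed (A := A) := p_genclosed subq subsum
  have algrel : S_algrel (A := A) := p_algrel
  have lincl : S_lincl A := p_lincl subq subsum
  have fprel : ∀ {K : Type} [Field K] (H : A ⥤ ModuleCat.{0} K) (HB : A ⥤ ModuleCat.{0} ℚ),
      S_fprel H HB := fun H HB => p_fprel H HB
  have single : ∀ {K : Type} [Field K] (H : A ⥤ ModuleCat.{0} K) (HB : A ⥤ ModuleCat.{0} ℚ),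
      S_single H HB := fun H HB => p_single H HB (fprel H HB)
  have univ : ∀ HB : A ⥤ ModuleCat.{0} ℚ, S_univ HB := fun HB => p_univ HB subq
  have psi : ∀ {K : Type} [Field K] (H : A ⥤ ModuleCat.{0} K) (HB : A ⥤ ModuleCat.{0} ℚ),
      S_psi H HB := fun H HB => p_psi H HB (fprel H HB) (single H HB) lincl
  have fincat : ∀ {K : Type} [Field K] (H : A ⥤ ModuleCat.{0} K)
      (HB : A ⥤ ModuleCat.{0} ℚ), S_fincat H HB := fun H HB => p_fincat H HB lincl
  have heredity : ∀ {K : Type} [Field K] (H : A ⥤ ModuleCat.{0} K)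
      (HB : A ⥤ ModuleCat.{0} ℚ), S_heredity H HB := fun H HB =>
    p_heredity H HB (fprel H HB) (single H HB) (univ HB) (psi H HB) (fincat H HB)
  have linear : S_linear (A := A) := p_linear univ psi p_rank (p_endbetti subq) p_range lincl
  have fpring : S_fpring (A := A) := p_fpring fprel single algrel
  have evcomp : S_evcomp (A := A) := p_evcomp fpring
  have lef : S_lef (A := A) := p_lef algrel
  have reduce : S_reduce (A := A) := p_reduce lef algrel single fpring fprel evcomp
  have reduce5 : S_reduce5 (A := A) := p_reduce5 lef algrel single fpring fprel evcomp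
  have vanish : S_vanish (A := A) := p_vanish fprel univ psi fincat
  have herAlg : S_herAlg (A := A) := p_herAlg heredity fpring evcomp single algrel genclosed lincl
  have q1 : S_q1 c := main_q1 c
  have top : Function.Injective (c.evAlg (fun _ : A => True)) →
      Function.Injective (c.ev (fun _ : A => True)) := ((evcomp c _).2 genclosed.2.1).1
  have down : Function.Injective (c.evAlg (fun _ : A => True)) →
      ∀ S : A → Prop, TClosed S → Function.Injective (c.evAlg S) := by
    intro h S hS
    have h2 : Function.Injective (c.ev S) :=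
      (herAlg c).1 S _ (fun _ _ => trivial) hS.toClosed genclosed.2.1.toClosed (top h)
    exact ((evcomp c S).2 hS).2 h2
  have lin : ∀ W : A, Function.Injective (c.evAlg (Gen W)) →
      Function.Injective (c.ev (Lin W)) := by
    intro W h
    have h1 : Function.Injective (c.ev (Gen W)) := ((evcomp c _).2 (genclosed.1 W)).1 h
    exact (herAlg c).1 (Lin W) (Gen W) (genclosed.2.2.1 W) (lincl.1 W)
      (genclosed.1 W).toClosed h1
  tfae_have 1 → 2 := fun h => (herAlg c).2 fun M => (q1 M).1 (h M)
  tfae_have 2 → 1 := fun h M => (q1 M).2 (down h _ (genclosed.1 M))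
  tfae_have 1 → 3 := fun h W _ => h W
  tfae_have 3 → 4 := fun h W hW => (linear c _).1 (lin _ ((q1 _).1 (h W hW)))
  tfae_have 4 → 2 := by
    intro h
    refine reduce c L L' hL 𝒲 ?_ fun W hW => (linear c _).2 (h W hW)
    intro N
    obtain ⟨e, W, hW, N', j, p, hj, hp⟩ := h𝒲 N
    have h1 := (lincl.1 W).sub j (lincl.2.1 _)
    exact ⟨e, W, hW, (lincl.1 _).quot p h1⟩
  tfae_have 2 → 5 := by
    intro h W _ ω σ hz
    have h1 : sym HdR HB (S := fun _ : A => True) trivial ω σ = 0 := by
      apply top h
      rw [map_zero]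
      simpa [sym, Comparison.ev] using hz
    exact (vanish HdR HB (fun M => inferInstance) ω σ).1 h1
  tfae_have 5 → 2 := fun h => reduce5 c L L' hL 𝒲 h𝒲 fun W hW ω σ hz => h W hW ω σ hz
  tfae_finish

end Pool.Agent.Lib.MP_ae0f86_nt.F
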