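import Pool.Agent.Lib.MP_ae0f86_nt.F.J.sumcof
import Pool.Agent.Lib.MP_ae0f86_nt.F.J.five
import Pool.Agent.Lib.MP_ae0f86_nt.F.J.poly
import Pool.Agent.Lib.MP_ae0f86_nt.D.AsmD
import Pool.Agent.Lib.MP_ae0f86_nt.GC.Max

/-!
# MP_ae0f86_nt, project FS: the final theorem, from the law for abstract sequences
-/

open CategoryTheory CategoryTheory.Limits Opposite MonoidalCategory Filter

universe v u

namespace Pool.Agent.Lib.MP_ae0f86_nt.F

noncomputable section

attribute [local instance] CategoryTheory.Abelian.hasFiniteBiproducts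

variable {A : Type u} [Category.{v} A] [Abelian A] [Linear ℚ A] [MonoidalCategory A]
  [MonoidalPreadditive A] [SymmetricCategory A] [RigidCategory A]
  {HdR : A ⥤ ModuleCat.{0} QBar} {HB : A ⥤ ModuleCat.{0} ℚ} [FibreFunctor HdR]
  [FibreFunctor HB]

omit [Linear ℚ A] [MonoidalCategory A] [MonoidalPreadditive A] [SymmetricCategory A]
  [RigidCategory A] in
theorem lin_of_subquot {X Y : A} (h : IsSubquot X Y) : Lin Y X := by
  have h4 : S_lincl A := a_lincl
  obtain ⟨N, i, p, hi, hp⟩ := h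
  exact (h4.1 Y).quot p ((h4.1 Y).sub i (h4.2.1 Y))

omit [Linear ℚ A] [MonoidalPreadditive A] [SymmetricCategory A] [RigidCategory A] in
theorem one_not_zero [SymmetricCategory A] (HB : A ⥤ ModuleCat.{0} ℚ) [FibreFunctor HB] :
    ¬ IsZero (𝟙_ A) := by
  intro h
  have h1 := (j_ften HB).1 (𝟙_ A)
  have h2 := h1.1 h (FibreFunctor.one : HB.obj (𝟙_ A))
  have h3 := (FibreFunctor.one_bij (H := HB)).1
    (show (fun a : ℚ => a • (FibreFunctor.one : HB.obj (𝟙_ A))) 1 =
      (fun a : ℚ => a • (FibreFunctor.one : HB.obj (𝟙_ A))) 0 by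
      simp only [h2, smul_zero])
  exact one_ne_zero h3

/-- The final theorem, from the law for abstract sequences. -/
theorem final_S (c : Comparison HdR HB) (law : GC.S_glawmax c)
    (gmax : GC.S_gmax HB) (cmp : ∀ (W : A) (γ : BDual HB W), integralRank c γ ≤ expectedRank HB γ)
    (triv : ∀ (W : A) (γ : BDual HB W), integralRank c γ = expectedRank HB γ ↔
      ∀ ω : HdR.obj W, c.val ω γ = 0 → Trivially HdR HB ω γ)
    (T : CohTheoryL QBar A) (hK : T.toCohTheory.KunnethAffine) :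
    (∃ H : ℕ → Feynman, Feynman.Listing T.toCohTheory H) ∧
    (∀ W : A, (∀ γ : BDual HB W, integralRank c γ ≤ expectedRank HB γ) ∧
      ∃ p : MvPolynomial (HB.obj W) ℚ,
        (∃ γ : BDual HB W, MvPolynomial.eval (fun x => γ x) p ≠ 0) ∧
        ∀ γ : BDual HB W, MvPolynomial.eval (fun x => γ x) p ≠ 0 →
          ∀ γ' : BDual HB W, expectedRank HB γ' ≤ expectedRank HB γ) ∧
    ∀ H : ℕ → Feynman, Feynman.Listing T.toCohTheory H → ∀ n : ℕ → ℕ,
      Tendsto (fun k => (n k : ℝ) / (∏ j ∈ Finset.range (k + 1),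
        (Module.finrank ℚ (HB.obj ((H j).top T.toCohTheory)) : ℝ)) ^ 5) atTop atTop →
      (∀ k, ∃ G : Feynman, G.Irreducible ∧
        Feynman.IsSum (fun i : Fin (n k + 1) × Fin (k + 1) => H i.2) G) ∧
      ∀ G : ℕ → Feynman, (∀ k, (G k).Irreducible ∧
        Feynman.IsSum (fun i : Fin (n k + 1) × Fin (k + 1) => H i.2) (G k)) →
      ∀ γ : ∀ k, BDual HB ((G k).top T.toCohTheory),
      (∀ k (γ' : BDual HB ((G k).top T.toCohTheory)),
        expectedRank HB γ' ≤ expectedRank HB (γ k)) →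
      ((∀ M : A, DimTrdeg c M) →
        Tendsto (fun k => (integralRank c (γ k) : ℝ) / expectedRank HB (γ k)) atTop
          (nhds (⨅ M : A, (1 : ℝ) / numComponents HdR HB M))) ∧
      ((∃ M : A, ¬ DimTrdeg c M) →
        Tendsto (fun k => (integralRank c (γ k) : ℝ) / expectedRank HB (γ k)) atTop
          (nhds 0)) ∧
      (∀ δ : ℝ, 0 < δ → List.TFAE [
        ∀ M : A, DimTrdeg c M ∧ δ * (numComponents HdR HB M : ℝ) ≤ 1,
        ∀ (W : A) (γ' : BDual HB W), δ * (expectedRank HB γ' : ℝ) ≤ integralRank c γ',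
        ∀ G : Feynman, G.Irreducible → ∀ γ' : BDual HB (G.top T.toCohTheory),
          δ * (expectedRank HB γ' : ℝ) ≤ integralRank c γ',
        ∃ᶠ k in atTop, δ * (expectedRank HB (γ k) : ℝ) ≤ integralRank c (γ k)]) ∧
      List.TFAE [
        ∀ M : A, PeriodConjecture c M,
        ∀ k, integralRank c (γ k) = expectedRank HB (γ k),
        ∃ᶠ k in atTop, ∀ ω : HdR.obj ((G k).top T.toCohTheory),
          c.val ω (γ k) = 0 → Trivially HdR HB ω (γ k),
        ∃ δ : ℝ, 1 / 2 < δ ∧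
          ∃ᶠ k in atTop, δ * (expectedRank HB (γ k) : ℝ) ≤ integralRank c (γ k)] := by
  obtain ⟨-, hten, hex⟩ := j_ften HB
  refine ⟨?_, fun W => ⟨cmp W, generic_poly HB W _ (gmax W)⟩, ?_⟩
  · obtain ⟨R, hR, hall⟩ := j_list T (main_geo T) j_equiv (one_not_zero HB) hten
    refine ⟨fun k => (R k).toFeynman, hR, fun G hG hG0 => ?_⟩
    obtain ⟨k, hk⟩ := hall G hG hG0
    exact ⟨k, isSum_of_iso hk⟩
  intro H hH n hn
  refine ⟨fun k => sum_exists H (fun k => (hH.1 k).1) (n k) k, ?_⟩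
  intro G hG γ hγ
  obtain ⟨R, hR⟩ := exists_roots H fun k => (hH.1 k).1
  obtain rfl : (fun k => (R k).toFeynman) = H := funext hR
  have hb : ∀ k, (Module.finrank ℚ (HB.obj ((Rooted.partialJoin R k).top T.toCohTheory)) : ℝ) =
      ∏ j ∈ Finset.range (k + 1),
        (Module.finrank ℚ (HB.obj ((R j).top T.toCohTheory)) : ℝ) := fun k => by
    rw [rank_partialJoin T hK HB R k]
    push_cast
    rfl
  have h1 := law (fun k => (Rooted.partialJoin R k).top T.toCohTheory)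
    (fun k => (G k).top T.toCohTheory) (fun _ => 𝟙_ A) n
    (fun k => ⟨𝟙_ A, ⟨λ_ (𝟙_ A)⟩⟩)
    (fun k => by
      obtain ⟨i⟩ := top_sum T hK R (n k) k (hG k).2
      exact ⟨i ≪≫ (ρ_ _).symm⟩)
    (fun N => by
      obtain ⟨k0, h0⟩ := cof_top T hK hten hex R hH.1 (fun G hG hG0 => by
        obtain ⟨k, hk⟩ := hH.2 G hG hG0
        obtain ⟨i⟩ := top_fequiv T.toCohTheory (fequiv_of_isSum hk)
        exact ⟨k, ⟨i.symm⟩⟩) N
      refine ⟨k0, fun k hk => ?_⟩
      obtain ⟨Y, hY, h⟩ := h0 k hk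
      exact ⟨Y, hY, lin_of_subquot h⟩)
    (j_five _ _ (by
      simp only [hb]
      exact hn)) γ hγ
  obtain ⟨a1, a2, a3, a4⟩ := h1
  refine ⟨a1, a2, fun δ hδ => ?_, ?_⟩
  swap
  · tfae_have 1 → 2 := (a4.out 0 1).1
    tfae_have 2 → 3 := fun h => Frequently.of_forall fun k => (triv _ (γ k)).1 (h k)
    tfae_have 3 → 4 := fun h => ⟨1, by norm_num, h.mono fun k hk => by
      rw [(triv _ (γ k)).2 hk, one_mul]⟩
    tfae_have 4 → 1 := (a4.out 2 0).1
    tfae_finish
  have b := a3 δ hδ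
  tfae_have 1 ↔ 2 := b.out 0 1
  tfae_have 2 → 3 := fun h G _ γ' => h _ γ'
  tfae_have 3 → 4 := fun h => Frequently.of_forall fun k => h (G k) (hG k).1 (γ k)
  tfae_have 4 → 1 := (b.out 2 0).1
  tfae_finish

end

end Pool.Agent.Lib.MP_ae0f86_nt.F
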