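import Pool.Agent.Lib.MP_ae0f86_nt.F.Tools

/-!
# MP_ae0f86_nt, project FEYNMAN: the Feynman graph of a system of walls

`Λ` is the (finite) set of variables, `c : Fin M → Wall Λ` the system.  There are `M * 3`
positions; the position `j` belongs to the slot `(finProdFinEquiv.symm j).2` of the wall
`(finProdFinEquiv.symm j).1`.
-/

open CategoryTheory CategoryTheory.Limits MvPolynomial Opposite MonoidalCategory

namespace Pool.Agent.Lib.MP_ae0f86_nt.F

noncomputable section

/-- The variable in the slot `i` of a wall. -/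
def slot {Λ : Type} (c : Wall Λ) : Fin 3 → Λ := ![c.i, c.j, c.l]

section Types

variable (Λ : Type) (M : ℕ)

/-- The gates: a variable and a position. -/
abbrev Gate : Type := Λ × Fin (M * 3)

/-- The wires: `T a j`, `j ≤ 3 M` (the trunk of the variable `a`), and for each gate a branch
`B p` and a converted branch `C p`. -/
abbrev Wire : Type := (Λ × Fin (M * 3 + 1)) ⊕ Gate Λ M ⊕ Gate Λ M

/-- The edges: four for each wire; two that join the copy gate `p` to the root, one that joins
the converter `p` to the root, one that joins the wall `τ` to the root. -/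
abbrev Edge : Type := (Wire Λ M × Fin 4) ⊕ (Gate Λ M × Fin 2) ⊕ Gate Λ M ⊕ Fin M

/-- The vertices. -/
inductive Vert : Type
  /-- the root -/
  | root
  /-- three vertices inside each wire -/
  | mid (w : Wire Λ M) (i : Fin 3)
  /-- the copy gate -/
  | copy (p : Gate Λ M)
  /-- a vertex between the copy gate and the root -/
  | half (p : Gate Λ M)
  /-- the converter -/
  | conv (p : Gate Λ M)
  /-- the wall -/
  | con (τ : Fin M)

end Types

variable {Λ : Type} {M : ℕ}

/-- The trunk wire `(a, j)`. -/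
abbrev tw (a : Λ) (j : Fin (M * 3 + 1)) : Wire Λ M := Sum.inl (a, j)
/-- The branch wire. -/
abbrev bw (p : Gate Λ M) : Wire Λ M := Sum.inr (Sum.inl p)
/-- The converted branch wire. -/
abbrev cw (p : Gate Λ M) : Wire Λ M := Sum.inr (Sum.inr p)
/-- The edge `i` of the wire `w`. -/
abbrev ew (w : Wire Λ M) (i : Fin 4) : Edge Λ M := Sum.inl (w, i)
/-- The edge `i` between the copy gate `p` and the root. -/
abbrev ec (p : Gate Λ M) (i : Fin 2) : Edge Λ M := Sum.inr (Sum.inl (p, i))
/-- The edge between the converter `p` and the root. -/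
abbrev ev (p : Gate Λ M) : Edge Λ M := Sum.inr (Sum.inr (Sum.inl p))
/-- The edge between the wall `τ` and the root. -/
abbrev et (τ : Fin M) : Edge Λ M := Sum.inr (Sum.inr (Sum.inr τ))

/-- The wall of the position `j`. -/
abbrev wallOf (j : Fin (M * 3)) : Fin M := (finProdFinEquiv.symm j).1
/-- The slot of the position `j`. -/
abbrev slotOf (j : Fin (M * 3)) : Fin 3 := (finProdFinEquiv.symm j).2
/-- The position of the slot `i` of the wall `τ`. -/
abbrev pos (τ : Fin M) (i : Fin 3) : Fin (M * 3) := finProdFinEquiv (τ, i)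

/-- The variable at the position `j`. -/
def vr (c : Fin M → Wall Λ) (j : Fin (M * 3)) : Λ := slot (c (wallOf j)) (slotOf j)

/-- The vertex in which a wire begins. -/
def wsrc : Wire Λ M → Vert Λ M
  | Sum.inl (a, j) => Fin.cases Vert.root (fun i => Vert.copy (a, i)) j
  | Sum.inr (Sum.inl p) => Vert.copy p
  | Sum.inr (Sum.inr p) => Vert.conv p

open Classical in
/-- The vertex in which a wire ends. -/
def wtgt (c : Fin M → Wall Λ) : Wire Λ M → Vert Λ M
  | Sum.inl (a, j) => Fin.lastCases Vert.root (fun i => Vert.copy (a, i)) j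
  | Sum.inr (Sum.inl p) => Vert.conv p
  | Sum.inr (Sum.inr p) => if vr c p.2 = p.1 then Vert.con (wallOf p.2) else Vert.root

/-- The beginning of an edge. -/
def esrc : Edge Λ M → Vert Λ M
  | Sum.inl (w, i) => if i = 0 then wsrc w else if i = 1 then Vert.mid w 0
    else if i = 2 then Vert.mid w 1 else Vert.mid w 2
  | Sum.inr (Sum.inl (p, i)) => if i = 0 then Vert.copy p else Vert.half p
  | Sum.inr (Sum.inr (Sum.inl p)) => Vert.conv p
  | Sum.inr (Sum.inr (Sum.inr τ)) => Vert.con τ

/-- The end of an edge. -/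
def etgt (c : Fin M → Wall Λ) : Edge Λ M → Vert Λ M
  | Sum.inl (w, i) => if i = 0 then Vert.mid w 0 else if i = 1 then Vert.mid w 1
    else if i = 2 then Vert.mid w 2 else wtgt c w
  | Sum.inr (Sum.inl (p, i)) => if i = 0 then Vert.half p else Vert.root
  | Sum.inr (Sum.inr (Sum.inl _)) => Vert.root
  | Sum.inr (Sum.inr (Sum.inr _)) => Vert.root

/-- The type of a position: `0` for the direction `e_1`, `1` for `f_1`, `2` for `e_2`. -/
def kind (c : Fin M → Wall Λ) (j : Fin (M * 3)) : Fin 3 :=
  if slotOf j = 2 then 2 else if slotOf j = 1 ∧ (c (wallOf j)).mul = true then 1 else 0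

/-- The direction of a wire. -/
def dir (c : Fin M → Wall Λ) : Wire Λ M → Fin 4 → ℤ
  | Sum.inl (_, j) => ![1, 0, -(j : ℕ), 0]
  | Sum.inr (Sum.inl _) => ![0, 0, 1, 0]
  | Sum.inr (Sum.inr p) =>
    if kind c p.2 = 0 then ![1, 0, 0, 0] else if kind c p.2 = 1 then ![0, 1, 0, 0]
      else ![0, 0, 1, 0]

/-- The vector `a` of a wire. -/
def av (c : Fin M → Wall Λ) : Wire Λ M → Fin 4 → ℤ
  | Sum.inl _ => ![0, 0, 1, 0]
  | Sum.inr (Sum.inl _) => ![1, 0, 0, 0]
  | Sum.inr (Sum.inr p) => if kind c p.2 = 2 then ![1, 0, 0, 0] else ![0, 0, 1, 0]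

/-- The vector `b` of a wire. -/
def bv (c : Fin M → Wall Λ) : Wire Λ M → Fin 4 → ℤ
  | Sum.inl (_, j) => ![0, (j : ℕ), 0, 1]
  | Sum.inr (Sum.inl _) => ![0, 1, 0, 0]
  | Sum.inr (Sum.inr p) => if kind c p.2 = 2 then ![0, 1, 0, 0] else ![0, 0, 0, 1]

/-- A coordinate of the direction of a wire which is equal to `1`. -/
def rc (c : Fin M → Wall Λ) : Wire Λ M → Fin 4
  | Sum.inl _ => 0
  | Sum.inr (Sum.inl _) => 2
  | Sum.inr (Sum.inr p) => if kind c p.2 = 0 then 0 else if kind c p.2 = 1 then 1 else 2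

/-- The momentum added to the edges. -/
def shift (f : Bool) (c : Fin M → Wall Λ) : Edge Λ M → Fin 4 → ℤ
  | Sum.inl (w, i) => wsh f (dir c w) (av c w) (bv c w) i
  | Sum.inr (Sum.inl (_, i)) => if i = 0 then ![0, 1, 0, 0] else ![0, 0, 0, 1]
  | Sum.inr (Sum.inr (Sum.inl p)) =>
    if kind c p.2 = 0 then ![0, 1, 0, 1] else if kind c p.2 = 1 then ![1, 0, 0, 1]
      else ![0, 0, 0, 1]
  | Sum.inr (Sum.inr (Sum.inr τ)) => if (c τ).mul then ![0, 0, if (c τ).d then 1 else 0, -1]
      else ![0, 1, if (c τ).d then 1 else 0, -1]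

instance [Finite Λ] : Finite (Vert Λ M) := by
  exact Finite.of_injective (fun v : Vert Λ M => (match v with
    | Vert.root => Sum.inl ()
    | Vert.mid w i => Sum.inr (Sum.inl (w, i))
    | Vert.copy p => Sum.inr (Sum.inr (Sum.inl p))
    | Vert.half p => Sum.inr (Sum.inr (Sum.inr (Sum.inl p)))
    | Vert.conv p => Sum.inr (Sum.inr (Sum.inr (Sum.inr (Sum.inl p))))
    | Vert.con τ => Sum.inr (Sum.inr (Sum.inr (Sum.inr (Sum.inr τ)))) :
      Unit ⊕ (Wire Λ M × Fin 3) ⊕ Gate Λ M ⊕ Gate Λ M ⊕ Gate Λ M ⊕ Fin M)) (by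
    intro v v' h
    cases v <;> cases v' <;> simp_all)

open Classical in
/-- The Feynman graph of the system `c`; the parameter `f` only concerns the fourth edge of each
wire. -/
def graph [Fintype Λ] (f : Bool) (c : Fin M → Wall Λ) : Feynman where
  V := Vert Λ M
  E := Edge Λ M
  finV := Fintype.ofFinite _
  finE := inferInstanceAs (Fintype (Edge Λ M))
  decV := Classical.decEq _
  src := esrc
  tgt := etgt c
  a := shift f c

/-- The flow with given values on the wires. -/
def flow {R : Type} [AddCommGroup R] (c : Fin M → Wall Λ) (x : Wire Λ M → R) : Edge Λ M → R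
  | Sum.inl (w, _) => x w
  | Sum.inr (Sum.inl (p, _)) => x (tw p.1 p.2.castSucc) - x (tw p.1 p.2.succ) - x (bw p)
  | Sum.inr (Sum.inr (Sum.inl p)) => x (bw p) - x (cw p)
  | Sum.inr (Sum.inr (Sum.inr τ)) => ∑ i : Fin 3, x (cw (vr c (pos τ i), pos τ i))

/-- The flow as a family of polynomials in the coordinates of the wires. -/
def flowPoly (k : Type) [Field k] (c : Fin M → Wall Λ) (e : Edge Λ M × Fin 4) :
    MvPolynomial (Wire Λ M × Fin 4) k :=
  flow c (fun w => (MvPolynomial.X (w, e.2) : MvPolynomial (Wire Λ M × Fin 4) k)) e.1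

/-- The denominator of the propagator `e` of the graph of `c`, in the coordinates of the wires. -/
def wden (k : Type) [Field k] [Fintype Λ] (f : Bool) (c : Fin M → Wall Λ) (e : Edge Λ M) :
    MvPolynomial (Wire Λ M × Fin 4) k :=
  bind₁ (flowPoly k c) ((graph f c).den k e)

/-- The first three edges of the wires. -/
def wireEdges [Fintype Λ] : List (Edge Λ M) :=
  (Finset.univ.toList : List (Wire Λ M)).flatMap fun w => [ew w 0, ew w 1, ew w 2]

/-- The fourth edges of the wires. -/
def topEdges [Fintype Λ] : List (Edge Λ M) :=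
  (Finset.univ.toList : List (Wire Λ M)).map fun w => ew w 3

/-- The edges of the copy gates and of the converters. -/
def gateEdges [Fintype Λ] : List (Edge Λ M) :=
  (Finset.univ.toList : List Λ).flatMap fun a =>
    (List.finRange (M * 3)).flatMap fun j => [ec (a, j) 0, ec (a, j) 1, ev (a, j)]

/-- The edges of the walls. -/
def conEdges : List (Edge Λ M) := (List.finRange M).map et

/-- The point `(c_w n_w)` with coordinates `c_w` on the wires, as a family of polynomials. -/
def linePoly (k : Type) [Field k] (c : Fin M → Wall Λ) (p : Wire Λ M × Fin 4) :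
    MvPolynomial (Wire Λ M) k :=
  MvPolynomial.C (dir c p.1 p.2 : k) * MvPolynomial.X p.1

/-- The equations of the copy gates and converters in the coordinates of the wires. -/
def gatePoly (k : Type) [Field k] (p : Gate Λ M) : Fin 3 → MvPolynomial (Wire Λ M) k :=
  ![MvPolynomial.X (tw p.1 p.2.castSucc) - MvPolynomial.X (tw p.1 p.2.succ),
    MvPolynomial.C (-((p.2 : ℕ) : k)) * MvPolynomial.X (tw p.1 p.2.castSucc) +
      MvPolynomial.C (((p.2 : ℕ) : k) + 1) * MvPolynomial.X (tw p.1 p.2.succ) -
        MvPolynomial.X (bw p),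
    MvPolynomial.X (bw p) - MvPolynomial.X (cw p)]

/-- The list of these equations. -/
def gateList (k : Type) [Field k] (Λ : Type) [Fintype Λ] (M : ℕ) :
    List (MvPolynomial (Wire Λ M) k) :=
  (Finset.univ.toList : List Λ).flatMap fun a =>
    (List.finRange (M * 3)).flatMap fun j =>
      [gatePoly k (a, j) 0, gatePoly k (a, j) 1, gatePoly k (a, j) 2]

/-- The equation of the wall `τ` in the coordinates of the wires. -/
def conPoly (k : Type) [Field k] (c : Fin M → Wall Λ) (τ : Fin M) :
    MvPolynomial (Wire Λ M) k :=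
  rename (fun i : Fin 3 => cw (vr c (pos τ i), pos τ i))
    (Wall.poly ⟨(c τ).mul, (0 : Fin 3), 1, 2, (c τ).d⟩ k)

/-- The variable of a wire. -/
def wvar : Wire Λ M → Λ
  | Sum.inl (a, _) => a
  | Sum.inr (Sum.inl p) => p.1
  | Sum.inr (Sum.inr p) => p.1

end

end Pool.Agent.Lib.MP_ae0f86_nt.F
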