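import Pool.Agent.Lib.MP_ae0f86_nt.F.Main
import Pool.Agent.Lib.MP_ae0f86_nt.F.J.cons
import Pool.Agent.Lib.MP_ae0f86_nt.F.J.loops
import Pool.Agent.Lib.MP_ae0f86_nt.F.J.irr
import Pool.Agent.Lib.MP_ae0f86_nt.F.J.compl
import Pool.Agent.Lib.MP_ae0f86_nt.F.J.coord
import Pool.Agent.Lib.MP_ae0f86_nt.F.J.equiv
import Pool.Agent.Lib.MP_ae0f86_nt.F.J.art
import Pool.Agent.Lib.MP_ae0f86_nt.F.J.ktop
import Pool.Agent.Lib.MP_ae0f86_nt.F.J.top
import Pool.Agent.Lib.MP_ae0f86_nt.F.J.pow
import Pool.Agent.Lib.MP_ae0f86_nt.F.J.cof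
import Pool.Agent.Lib.MP_ae0f86_nt.F.J.ften

/-!
# MP_ae0f86_nt, project FS: assembly of the geometric pieces
-/

open CategoryTheory CategoryTheory.Limits Opposite MonoidalCategory

universe v u

namespace Pool.Agent.Lib.MP_ae0f86_nt.F

attribute [local instance] CategoryTheory.Abelian.hasFiniteBiproducts

/-- The join of irreducible graphs is irreducible. -/
theorem join_irr (G G' : Rooted) (h : G.Irreducible) (h' : G'.Irreducible) :
    (G.join G').Irreducible := j_irr j_cons G G' h h'

theorem partialJoin_irr (H : ℕ → Rooted) (h : ∀ k, (H k).Irreducible) (k : ℕ) :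
    (Rooted.partialJoin H k).Irreducible := by
  induction k with
  | zero => exact h 0
  | succ k ih => exact join_irr _ _ ih (h (k + 1))

theorem power_irr (G : Rooted) (h : G.Irreducible) (n : ℕ) : (G.power n).Irreducible := by
  induction n with
  | zero => exact h
  | succ n ih => exact join_irr _ _ ih h

section

variable {A : Type u} [Category.{v} A] [Abelian A] [MonoidalCategory A]
  [MonoidalPreadditive A] [SymmetricCategory A]

theorem main_jtop (T : CohTheoryL QBar A) : S_jtop T :=
  j_top T (j_loops j_cons) (j_compl j_cons) (j_art T j_coord p_usci) (j_ktop T.toCohTheory)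

/-- The top cohomology of the powers of a graph. -/
theorem main_jpow (T : CohTheoryL QBar A) : S_jpow T := j_pow T (main_jtop T)

/-- The cofinality of the sequence of graphs. -/
theorem main_jcof (T : CohTheoryL QBar A) : S_jcof T :=
  j_cof T (main_geo T) (main_jtop T) j_equiv p_subq

end

end Pool.Agent.Lib.MP_ae0f86_nt.F
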