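import Pool.Agent.Lib.MP_ae0f86_nt.F.Defs

/-!
# MP_ae0f86_nt : joins of Feynman graphs
-/

open CategoryTheory CategoryTheory.Limits Opposite MonoidalCategory

universe v u

namespace Pool.Agent.Lib.MP_ae0f86_nt

noncomputable section

/-- A Feynman graph with a base vertex. -/
structure Rooted extends Feynman where
  /-- the base vertex -/
  root : V

namespace Rooted

/-- The one-vertex join of `G` and `G'`: the union of the two graphs, with the two base vertices
identified. (The vertices are the pairs `(v, r')` and `(r, v')`.) -/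
def join (G G' : Rooted) : Rooted where
  V := {p : G.V × G'.V // p.1 = G.root ∨ p.2 = G'.root}
  E := G.E ⊕ G'.E
  finV := inferInstance
  finE := inferInstance
  decV := inferInstance
  src := Sum.elim (fun e => ⟨(G.src e, G'.root), Or.inr rfl⟩)
    (fun e => ⟨(G.root, G'.src e), Or.inl rfl⟩)
  tgt := Sum.elim (fun e => ⟨(G.tgt e, G'.root), Or.inr rfl⟩)
    (fun e => ⟨(G.root, G'.tgt e), Or.inl rfl⟩)
  a := Sum.elim G.a G'.a
  root := ⟨(G.root, G'.root), Or.inl rfl⟩

/-- The join of `H 0`, ..., `H k`. -/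
def partialJoin (H : ℕ → Rooted) : ℕ → Rooted
  | 0 => H 0
  | k + 1 => (partialJoin H k).join (H (k + 1))

/-- The join of `n + 1` copies of `G`. -/
def power (G : Rooted) : ℕ → Rooted
  | 0 => G
  | n + 1 => (power G n).join G

end Rooted

/-- An isomorphism of Feynman graphs. -/
def Feynman.Isomorphic (G G' : Feynman) : Prop :=
  ∃ (f : G.V ≃ G'.V) (g : G.E ≃ G'.E), (∀ e, G'.src (g e) = f (G.src e)) ∧
    (∀ e, G'.tgt (g e) = f (G.tgt e)) ∧ ∀ e, G'.a (g e) = G.a e

end

end Pool.Agent.Lib.MP_ae0f86_nt
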