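import Pool.Agent.Lib.MP_ae0f86_nt.F.Graph
import Pool.Agent.Lib.MP_ae0f86_nt.StmU
import Pool.Agent.Lib.MP_ae0f86_nt.StmB

/-!
# MP_ae0f86_nt, project FEYNMAN: statements of the pieces

The piece `[FY xxx]` is a theorem `p_xxx : S_xxx` (or `p_xxx (h1 : S_yyy) ... : S_xxx` when the
docstring says that it uses other pieces), in the file `Lib/MP_ae0f86_nt/F/P/xxx.lean`, in the
namespace `Pool.Agent.Lib.MP_ae0f86_nt.F`.  The file imports `F.Stm` and `Mathlib`.
-/

open CategoryTheory CategoryTheory.Limits MvPolynomial Opposite MonoidalCategory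

universe v u

namespace Pool.Agent.Lib.MP_ae0f86_nt.F

noncomputable section

attribute [local instance] CategoryTheory.Abelian.hasFiniteBiproducts

/-! ## A. chains and complete intersections -/

/-- [FY ci] Chains and smooth complete intersections.

(a) A chain is a smooth complete intersection. Induction from the right
(`List.reverseRecOn`, note that a prefix of a chain is a chain: if `l ++ [t]` is a chain and
`l = acc ++ s :: rest` then `l ++ [t] = acc ++ s :: (rest ++ [t])`). For `l ++ [t]` and
`x ∈ zs (l ++ [t])`: `x ∈ zs l`, `t(x) = 0`, so `grad x t` is not in the span of the gradients of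
`f ∈ l` and these are independent by induction: `linearIndependent_fin_snoc` (or
`LinearIndependent.fin_cons'`), after reindexing along `Fin (l.length + 1) ≃ Fin (l ++ [t]).length`
(`(l ++ [t]).get a = l.get a` for `a < l.length` and `= t` for `a = l.length`).
(b) If `l` is a chain and `l ++ [t]` is a smooth complete intersection then `l ++ [t]` is a chain:
if `l ++ [t] = acc ++ s :: rest` then either `rest = []`, `acc = l`, `s = t`, and `grad x t` is not in
the span of the others by independence at `x ∈ zs (l ++ [t])`; or `rest = rest' ++ [t]` and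
`l = acc ++ s :: rest'`.
(c) the empty list is a chain; a prefix of a chain is a chain.
(d) `[f]` is a chain if `grad x f ≠ 0` at each zero `x` of `f`. -/
def S_ci : Prop := ∀ {k : Type} [Field k] {ι : Type},
  (∀ l : List (MvPolynomial ι k), Chain l → SmoothCI l) ∧
  (∀ (l : List (MvPolynomial ι k)) (t : MvPolynomial ι k), Chain l → SmoothCI (l ++ [t]) →
    Chain (l ++ [t])) ∧
  (∀ l m : List (MvPolynomial ι k), Chain (l ++ m) → Chain l) ∧
  Chain ([] : List (MvPolynomial ι k)) ∧
  (∀ f : MvPolynomial ι k, (∀ x, eval x f = 0 → grad x f ≠ 0) → Chain [f])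

/-- [FY pv] A list is a chain if each member contains a private variable: if
`l = acc ++ t :: rest` there is a variable `i` such that `∂f/∂x_i = 0` for `f ∈ acc`, and
`∂t/∂x_i` is nowhere zero (on the zeros of `t` and of the `f ∈ acc`).

Proof: all vectors in the span of the `grad x f`, `f ∈ acc`, have `i`-coordinate `0`
(`Submodule.span_induction`, or `span ≤ ker (proj i)`), `grad x t` does not. -/
def S_pv : Prop := ∀ {k : Type} [Field k] {ι : Type} (l : List (MvPolynomial ι k)),
  (∀ (acc : List (MvPolynomial ι k)) (t : MvPolynomial ι k) (rest : List (MvPolynomial ι k)),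
    l = acc ++ t :: rest → ∃ i : ι, (∀ f ∈ acc, pderiv i f = 0) ∧
      ∀ x ∈ zs acc, eval x t = 0 → eval x (pderiv i t) ≠ 0) → Chain l

/-- [FY ct] Chains and parametrisations. Let `l` be a chain in `k^ι`, and let the polynomial map
`Φ : k^τ → k^ι` have image `zs l`. If the list of the `f ∘ Φ`, `f ∈ m`, is a chain then so is
`l ++ m`.

Proof: let `l ++ m = acc ++ t :: rest`. If `acc ++ [t]` is a prefix of `l` use that `l` is a chain.
Otherwise `acc = l ++ m1`, `m = m1 ++ t :: rest` (`List.append_eq_append_iff`). Let `x ∈ zs acc`,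
`t(x) = 0`; `x = Φ(y)`. Let `D : k^ι → k^τ` be the linear map
`(D v)_j = ∑_i v_i (∂Φ_i/∂y_j)(y)`; chain rule: `grad y (bind₁ Φ f) = D (grad x f)` (for all
polynomials `f`: induction on `f`, or `MvPolynomial.pderiv` of `bind₁`/`aeval`, a derivation
identity; `ι` is finite). For `f ∈ l`, `f ∘ Φ` vanishes at all points of `k^τ`, so it is the zero
polynomial (`MvPolynomial.funext`, `k` infinite), and `D (grad x f) = 0`. If `grad x t` were in the
span of the gradients of `acc = l ++ m1`, then `grad y (t ∘ Φ) = D (grad x t)` would be in the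
span of the `grad y (f ∘ Φ)`, `f ∈ m1`, which contradicts the hypothesis on `m ∘ Φ` for
`acc' = m1 ∘ Φ` (`y ∈ zs acc'`, `(t ∘ Φ)(y) = 0`). -/
def S_ct : Prop := ∀ {k : Type} [Field k] [Infinite k] {ι τ : Type} [Finite ι]
  (l m : List (MvPolynomial ι k)) (Φ : ι → MvPolynomial τ k), Chain l →
  (∀ x : ι → k, x ∈ zs l ↔ ∃ y : τ → k, (fun i => eval y (Φ i)) = x) →
  Chain (m.map (bind₁ Φ)) → Chain (l ++ m)

/-- [FY reg] The two forms of the linear independence of the gradients.

Proof: (a) `Reg l x` iff the family of the gradients is linearly independent: induction from the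
right, as in `S_ci` (see `P/ci.lean`): `l ++ [t]` is `Reg` at `x` iff `l` is and `grad x t` is not in the
span of the gradients of `f ∈ l`; `linearIndependent_fin_snoc`, or
`LinearIndependent.fin_cons'` etc. (b) A chain is a chain relative to `1`: if
`l = acc ++ rest` and `x ∈ zs acc`, `acc = acc' ++ t :: r'`, then `x ∈ zs acc'`, `t(x) = 0`. -/
def S_reg : Prop := ∀ {k : Type} [Field k] {ι : Type} (l : List (MvPolynomial ι k)),
  (∀ x : ι → k, Reg l x ↔ LinearIndependent k fun a : Fin l.length => grad x (l.get a)) ∧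
  (Chain l → RChain l 1)

/-- [FY rct] Relative chains and parametrisations (the relative form of `S_ct`, `P/ct.lean`). Let
`l` be a chain relative to `g`, and let the polynomial map `Φ : k^τ → k^ι` have image
`{x ∈ zs l | g(x) ≠ 0}`. If the list of the `f ∘ Φ`, `f ∈ m`, is a chain then `l ++ m` is a chain
relative to `g`.

Proof: let `l ++ m = acc ++ rest`, `x ∈ zs acc`, `(rest.prod * g)(x) ≠ 0`. If `acc` is a prefix of
`l`, `l = acc ++ r0`, `rest = r0 ++ m`, then `(r0.prod * g)(x) ≠ 0` and `Reg acc x` since `l` is a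
chain relative to `g`. Otherwise `acc = l ++ m1`, `m = m1 ++ rest`; `g(x) ≠ 0`, so `x = Φ(y)`; and
`Reg l x` (the prefix `l` of `l`). Let `acc = acc' ++ t :: r'`. If `acc'` is shorter than `l` use
`Reg l x`. Otherwise `acc' = l ++ m1'`, `m1 = m1' ++ t :: r'`, and `grad x t` is not in the span of
the gradients of `acc'` as in the proof of `S_ct`: the linear map
`D : k^ι → k^τ`, `(D v)_j = ∑_i v_i (∂Φ_i/∂y_j)(y)` satisfies `D (grad x f) = grad y (bind₁ Φ f)`,
which is `0` for `f ∈ l`, so `grad y (bind₁ Φ t)` would be in the span of the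
`grad y (bind₁ Φ f)`, `f ∈ m1'`, against the chain condition for `m.map (bind₁ Φ)` (`y` is a zero
of these and of `bind₁ Φ t`). -/
def S_rct : Prop := ∀ {k : Type} [Field k] [Infinite k] {ι τ : Type} [Finite ι]
  (l m : List (MvPolynomial ι k)) (g : MvPolynomial ι k) (Φ : ι → MvPolynomial τ k),
  RChain l g →
  (∀ x : ι → k, (x ∈ zs l ∧ eval x g ≠ 0) ↔ ∃ y : τ → k, (fun i => eval y (Φ i)) = x) →
  Chain (m.map (bind₁ Φ)) → RChain (l ++ m) g

/-! ## B. the residue lemma -/

section Res

variable {k : Type} [Field k] {A : Type u} [Category.{v} A] [Abelian A] [MonoidalCategory A]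

/-- [FY usci] If `l` is a smooth complete intersection in the open set `g ≠ 0` of `k^ι` then
`ul l g` (the equations of `us l g`) is a smooth complete intersection in `k^(ι ⊕ Unit)`; and if in
addition `l ++ [t]` is a smooth complete intersection in the open set `g ≠ 0` then the function `t`
on `us l g` satisfies the condition `Cut` in the definition of a `DivPair`
(`W = us l g`, codimension `c = l.length + 1`).

Proof: at `z = (x, u)` with `u g(x) = 1` (so `g(x) ≠ 0`) the gradients of the members of `ul l g` are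
`(grad x f_a, 0)` and `(u · grad x g, g(x))`; a vanishing linear combination has zero last
coefficient (the `inr ()`-coordinate), then the others vanish. The second part: the
polynomials `p a` are the members of `ul l g`, `s = 1`, and if `t(x) = 0` the vector
`(grad x t, 0)` is added (`x ∈ zs (l ++ [t])`); if `t(x) ≠ 0` the index type of the additional
family is empty. For the reindexing `Fin (l.length + 1)` versus `Fin (ul l g).length` use
`Fin.cast`. -/
def S_usci : Prop := ∀ {k : Type} [Field k] {ι : Type} (l : List (MvPolynomial ι k))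
  (g : MvPolynomial ι k), SmoothOn l g → SmoothCI (ul l g) ∧
    ∀ t : MvPolynomial ι k, SmoothOn (l ++ [t]) g → ∀ z ∈ us l g,
      Cut (l.length + 1) (us l g) z
        (fun _ : {_u : Unit // eval z (rename Sum.inl t) = 0} => rename Sum.inl t)

/-- [FY res] One residue. Let `l` and `l ++ [t]` be smooth complete intersections in the open set
`g ≠ 0` of `k^ι` and `q = |ι| - |l|` the dimension of `zs l`. There is an epimorphism
`h^q({x ∈ zs l, t g ≠ 0}) → h^(q-1)({x ∈ zs l, t = 0, g ≠ 0}) ⊗ L`. Uses `S_usci`.

Proof: let `P : DivPair k` be given by `W = us l g` in `k^(ι ⊕ Unit)`, the function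
`rename Sum.inl t` and the codimension `l.length + 1` (`S_usci`). The triple
`(W × A^1, {(z, w) | w t(z) = 1}, ∅)` (its pair `XY` is `P.U`) gives the exact sequence
`h^q({w t = 1}) → h^(q+1)(P.U) → h^(q+1)(W × A^1)` (`exact_XY` and `exact_YZ`), and
`h^(q+1)(W × A^1) ≅ h^(q+1)(W) = 0`: homotopy invariance, and Artin vanishing for `ul l g`
(`us_eq`, `S_usci`; `|ι ⊕ Unit| - (|l| + 1) = q < q + 1`). So `h^q({w t = 1}) → h^(q+1)(P.U)` is
epi, and `h^(q+1)(P.U) ≅ h^(q-1)(P.D) ⊗ L` (`thom` for `i = q - 1`; `q - 1 + 2 = q + 1`). Finally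
`{w t = 1}` is isomorphic to `us l (t * g)` by `(x, u, w) ↦ (x, u w)`, inverse
`(x, v) ↦ (x, v t(x), v g(x))`, and `P.D` is isomorphic (even equal as a set) to
`us (l ++ [t]) g`. -/
def S_res (T : CohTheoryL k A) : Prop := ∀ {ι : Type} [Finite ι] (l : List (MvPolynomial ι k))
  (t g : MvPolynomial ι k), SmoothOn l g → SmoothOn (l ++ [t]) g →
  ∃ f : (T.h ((Nat.card ι : ℤ) - l.length)).obj (op (AffPair.abs (us_alg l (t * g)))) ⟶
      (T.h ((Nat.card ι : ℤ) - (l.length + 1))).obj (op (AffPair.abs (us_alg (l ++ [t]) g))) ⊗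
        T.L, Epi f

/-- [FY rl] The residue lemma: for a list `l` in `k^ι` which is a chain relative to `g` there is an
epimorphism `h^|ι|({x | g(x) ≠ 0, f(x) ≠ 0 for all f ∈ l}) →
h^(|ι| - |l|)({x ∈ zs l | g(x) ≠ 0}) ⊗ L^|l|`. Uses `S_reg`, `S_res`, `S_tensmono` (of the old
library: `- ⊗ L^n` preserves epimorphisms).

Proof: show for all lists `acc`, `rest` with `acc ++ rest` a chain relative to `g`, by induction on
`rest`, that there is an epimorphism `h^(|ι| - |acc|)(us acc (rest.prod * g)) →
h^(|ι| - |acc| - |rest|)(us (acc ++ rest) g) ⊗ L^|rest|`. `rest = []`: the identity and `ρ` (and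
`1 * g = g`). `rest = t :: r`: by `S_res` with the function `r.prod * g` (`t * (r.prod * g) =
(t :: r).prod * g`) an epimorphism to `h(us (acc ++ [t]) (r.prod * g)) ⊗ L`, then the one of the
induction hypothesis for `acc ++ [t]`, `r`, tensored with `L` (epi by `S_tensmono` for `n = 1`, or
because `- ⊗ L` is an equivalence), and the isomorphism `(N ⊗ L^m) ⊗ L ≅ N ⊗ L^(m+1)` (`α`,
definition of `tpow`). The hypotheses of `S_res`: `SmoothOn (acc ++ [t]) (r.prod * g)` is the chain
condition for `acc ++ [t]` (and `S_reg`); `SmoothOn acc (r.prod * g)`: if `t(x) ≠ 0` it is the chain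
condition for `acc`, and if `t(x) = 0` it follows from the one for `acc ++ [t]` (`Reg (acc ++ [t]) x`
implies `Reg acc x`). -/
def S_rl (T : CohTheoryL k A) : Prop := ∀ {ι : Type} [Finite ι] (l : List (MvPolynomial ι k))
  (g : MvPolynomial ι k), RChain l g →
  ∃ f : (T.h (Nat.card ι)).obj (op (AffPair.abs (us_alg [] (l.prod * g)))) ⟶
      (T.h ((Nat.card ι : ℤ) - l.length)).obj (op (AffPair.abs (us_alg l g))) ⊗
        tpow T.L l.length, Epi f

/-- [FY lef] Iterated hyperplane sections: let `l` be a chain in `k^ι` and `i ≤ |ι| - |l|`. There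
are polynomials `m` with integer coefficients such that `l ++ m` is a chain,
`|ι| - |l| - |m| = i` and `h^i(zs l)` embeds into `h^i(zs (l ++ m))`. Uses `S_ci`.

Proof: induction on `(|ι| - |l| - i).toNat`. If `i = |ι| - |l|` take `m = []`. Otherwise `lefschetz`
gives `t`, `l ++ [t]` is a chain by `S_ci` (a) and (b), and the induction hypothesis for
`l ++ [t]` gives `m'`; take `m = t :: m'` and compose the two monomorphisms. -/
def S_lef (T : CohTheoryL k A) : Prop := ∀ {ι : Type} [Finite ι] (l : List (MvPolynomial ι k))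
  (i : ℤ), Chain l → i ≤ (Nat.card ι : ℤ) - l.length →
  ∃ m : List (MvPolynomial ι ℤ), Chain (l ++ zl' k m) ∧
    (Nat.card ι : ℤ) - (l ++ zl' k m).length = i ∧
    ∃ f : (T.h i).obj (op (AffPair.abs (zs_alg l))) ⟶
      (T.h i).obj (op (AffPair.abs (zs_alg (l ++ zl' k m)))), Mono f

end Res

/-! ## C. straight line programs -/

/-- [FY pstep] One more line of a program. Let `S`, `w` be a program with variables `σ ⊕ κ`, let `c`
be a wall in the variables `σ ⊕ Option κ` and `v` a polynomial such that
(i) for each `z` with `z_(some j) = w_j(z)` for all `j`, the equation of `c` holds at `z` iff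
`z_none = v(z)`; (ii) the derivative of the equation of `c` with respect to the new variable
`none` is nowhere zero. Then the list of the old walls (with renamed variables) followed by `c` is
a program for the family `(v, w)`.

Proof. Zero set: clear from (i). Length: `Nat.card (Option κ) = Nat.card κ + 1`. Chain: let
`wl k (S' ++ [c]) = acc ++ t :: rest`. If `t` is the last one, `acc = wl k S'` and `∂f/∂(none) = 0`
for `f ∈ acc` (the polynomials of the renamed walls are `rename` of the old ones, which do not
contain the new variable), while `∂t/∂(none) ≠ 0`. Otherwise `acc`, `t` are renamed from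
`wl k S = acc0 ++ t0 :: rest0`; for `z ∈ zs acc` the restriction `z0` of `z` to `σ ⊕ κ` is in
`zs acc0`, `t0(z0) = 0`, and if `grad z t` were in the span of the `grad z f`, `f ∈ acc`, then
restricting the vectors to the coordinates in `σ ⊕ κ` (`pderiv_rename` for an injective map)
would give `grad z0 t0` in the span of the `grad z0 f0`. -/
def S_pstep : Prop := ∀ {k : Type} [Field k] {σ κ : Type} [Finite σ] [Finite κ]
  (S : List (Wall (σ ⊕ κ))) (w : κ → MvPolynomial σ ℤ), IsProg k S w →
  ∀ (c : Wall (σ ⊕ Option κ)) (v : MvPolynomial σ ℤ),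
    (∀ z : σ ⊕ Option κ → k, (∀ j, z (Sum.inr (some j)) =
        eval (z ∘ Sum.inl) (MvPolynomial.map (Int.castRingHom k) (w j))) →
      (eval z (c.poly k) = 0 ↔ z (Sum.inr none) =
        eval (z ∘ Sum.inl) (MvPolynomial.map (Int.castRingHom k) v))) →
    (∀ z : σ ⊕ Option κ → k, eval z (pderiv (Sum.inr none) (c.poly k)) ≠ 0) →
    IsProg k (S.map (fun d => ⟨d.mul, Sum.map id some d.i, Sum.map id some d.j,
        Sum.map id some d.l, d.d⟩) ++ [c])
      (fun o : Option κ => o.elim v w)

/-- [FY pext] Every program can be extended so that it also computes a given polynomial `p`.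
Uses `S_pstep`.

Proof: induction on `p` (`MvPolynomial.induction_on`), for all programs; one step is `S_pstep`,
with one of the following walls (`y = none` is the new variable, `u`, `u'` old variables,
characteristic zero is not needed):
* the constants `0` and `1`: `y + y = y + d`, polynomial `X y + X y - X y - d`, derivative `1`;
* `y = u + u'`: wall `u + u' = y`, derivative `-1`; `y = u u'`: wall `u u' = y`;
* the negative `y = -u`: with `o` a variable that computes `0`: wall `u + y = o`, derivative `1`.
Integer constants: `0`, `1`, then `n + 1` and `-n` (`Int.induction_on`). `X_i`: `y = x_i + o`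
(`o` computes `0`). Sums and products: extend for `p_1`, then for `p_2` (the old polynomials are
still computed), then one more line. -/
def S_pext : Prop := ∀ {k : Type} [Field k] {σ κ : Type} [Finite σ] [Finite κ]
  (p : MvPolynomial σ ℤ) (S : List (Wall (σ ⊕ κ))) (w : κ → MvPolynomial σ ℤ), IsProg k S w →
  ∃ (κ' : Type) (_ : Finite κ') (S' : List (Wall (σ ⊕ κ'))) (w' : κ' → MvPolynomial σ ℤ),
    IsProg k S' w' ∧ (∀ j, ∃ j', w' j' = w j) ∧ ∃ j', w' j' = p

/-- [FY prog] Integral equations as a system of walls. For each list `p` of polynomials with integer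
coefficients in the variables `σ` there is a list `S` of walls in the variables `σ ⊕ κ` such that
`|S| = |κ| + |p|`, `zs S ≅ zs p`, and `S` is a chain if `p` is one. Uses `S_pext`, `S_ct`.

Proof: start with the empty program (`κ = Empty`, the empty list is a chain, its zero set is
everything) and extend it (`S_pext`) to a program `S0`, `w` that computes all members of `p`: for
each index `a` let `o_a ∈ κ` be a variable with `w_(o_a) = p_a`. Let `S = S0 ++ [o_a + o_a = o_a]_a`;
the equation of `o_a + o_a = o_a` is `X + X - X - 0 = X_(o_a)`. `zs S` is the graph of `w` over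
`zs p`, isomorphic to `zs p` by the projection (inverse `x ↦ (x, w(x))`). If `p` is a chain apply
`S_ct` with `l = wl k S0`, `m` the list of the `X_(o_a)`, `Φ : x ↦ (x, w(x))`: the composites are the
polynomials `p_a`. -/
def S_prog : Prop := ∀ {k : Type} [Field k] [Infinite k] {σ : Type} [Finite σ]
  (p : List (MvPolynomial σ ℤ)), ∃ (κ : Type) (_ : Finite κ) (S : List (Wall (σ ⊕ κ))),
    S.length = Nat.card κ + p.length ∧ Iso (zs_alg (zl' k p)) (zs_alg (wl k S)) ∧
    (Chain (zl' k p) → Chain (wl k S))

/-- [FY reidx] Renaming the variables of a system of walls.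

Proof: `zs`: the isomorphism `x ↦ x ∘ ε.symm`. Chain: the members of the new list are the
`rename ε f`; if `l.map (rename ε) = acc ++ t :: rest` then `acc = acc0.map (rename ε)`,
`t = rename ε t0`, `l = acc0 ++ t0 :: rest0`, and `grad x (rename ε f) = (grad (x ∘ ε) f) ∘ ε.symm`
(`MvPolynomial.pderiv_rename` for the injective `ε`), a linear isomorphism of `k^Λ` and `k^Λ'`. -/
def S_reidx : Prop := ∀ {k : Type} [Field k] {Λ Λ' : Type} [Finite Λ] [Finite Λ'] (ε : Λ ≃ Λ')
  (S : List (Wall Λ)), Iso (zs_alg (wl k S))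
    (zs_alg (wl k (S.map fun d => ⟨d.mul, ε d.i, ε d.j, ε d.l, d.d⟩))) ∧
  (Chain (wl k S) → Chain (wl k (S.map fun d => ⟨d.mul, ε d.i, ε d.j, ε d.l, d.d⟩)))

/-- [FY hyp] The cubic `{∑ y_j q_j(x) = 1}` as the zero set of one polynomial with integer
coefficients, which is a chain.

Proof: `F = ∑_j X_(inr j) * rename inl (q_j) - 1`. At a zero of `F` some `q_j(x) ≠ 0` and the
`inr j`-coordinate of the gradient is `q_j(x)`. (Use `S_ci` (d), or unfold `Chain`: if
`[F] = acc ++ t :: rest` then `acc = []`, `t = F`, and the span of the empty set is `0`.) -/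
def S_hyp : Prop := ∀ {k : Type} [Field k] {n r : ℕ} (q : Fin r → MvPolynomial (Fin n) ℤ),
  ∃ F : MvPolynomial (Fin n ⊕ Fin r) ℤ,
    hyp (fun j => MvPolynomial.map (Int.castRingHom k) (q j)) = zs (zl' k [F]) ∧
    Chain (zl' k [F])

/-! ## D. wires -/

/-- [FY wzero] The propagators of one wire, at the points `x_w`. For the wires in a list `ws`: the
first three propagators vanish and the fourth one (for `f = false`) does not iff `x_w ∈ k n_w`; the
fourth one is `-1` at `x_w = α n_w`; and all four propagators for `f = true` vanish iff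
`x_w ∈ k n_w`.

Proof: let `y = x_w + a`, `⟨ , ⟩ = bl` the polar form (`(v + w)^2 = v^2 + ⟨v, w⟩ + w^2`).
`y^2 = 0` and `(y + n)^2 = 0` give `⟨y, n⟩ = 0`, so `y = s n + t a + u b` (`perp`) and
`0 = y^2 = t u`. The third, `0 = (y - a - b)^2 = y^2 - ⟨y, a + b⟩ + 1 = 1 - t - u`. The fourth for
`f = false` is `(y - b)^2 = -⟨y, b⟩ = -t`, for `f = true` it is `(y - a)^2 = -⟨y, a⟩ = -u`. So in both
cases `u = 0`, `t = 1`, `x_w = s n`. The converse and the value `-1` are calculations. -/
def S_wzero : Prop := ∀ {k : Type} [Field k] {W : Type} (n a b : W → Fin 4 → k) (r : W → Fin 4),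
  (∀ w, IsWire (n w) (a w) (b w) (r w)) →
    (∀ (ws : List W) (x : W × Fin 4 → k), (x ∈ zs (wireList n a b ws) ∧
      ∀ w ∈ ws, eval x (wireProp false n a b w 3) ≠ 0) ↔
        ∀ w ∈ ws, ∃ α : k, ∀ i, x (w, i) = α * n w i) ∧
    (∀ (w : W) (x : W × Fin 4 → k) (α : k), (∀ i, x (w, i) = α * n w i) →
      eval x (wireProp false n a b w 3) = -1) ∧
    (∀ (w : W) (x : W × Fin 4 → k), (∀ i : Fin 4, eval x (wireProp true n a b w i) = 0) ↔
      ∃ α : k, ∀ i, x (w, i) = α * n w i)

/-- [FY wchain] The first three propagators of the wires are a chain relative to the fourth ones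
(for a list of wires without repetitions).

Proof: let `wireList n a b ws = acc ++ rest`, `x ∈ zs acc`, `(rest.prod * g)(x) ≠ 0`, and
`acc = acc' ++ t :: r'`. Then `t` is the propagator `j < 3` of a wire `w`, `ws = ws1 ++ w :: ws2`, and
`acc'` consists of all propagators of the wires in `ws1` and the propagators `i < j` of the wire `w`.
Since `w ∉ ws1` the gradients of the propagators of the wires in `ws1` are zero in the coordinates
`(w, ·)`. So it is enough to show for the vectors in `k^4`: with `y = x_w + a` and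
`J v = (v_1, v_0, v_3, v_2)` (the gradient of `v ↦ v^2`; `J` is linear and injective) that `J y ≠ 0`
(`j = 0`), `J (y + n) ∉ k J y` (`j = 1`), `J (y - a - b) ∉ k J y + k J (y + n)` (`j = 2`). The first
three propagators of `w` that vanish at `x` are a prefix, of length `m > j`, the others (and the
fourth one, by the hypothesis on `g`) are not zero. `m = 1`: `y ≠ 0`, since `(y + n)^2 ≠ 0` and
`n^2 = 0`. `m ≥ 2`: `y = s n + t a + u b`, `t u = 0` (as in `S_wzero`), and the fourth is
`-t ≠ 0`, so `y = s n + t a` with `t ≠ 0`: `y ≠ 0`, and `y + n ∉ k y`, because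
`y + n = λ y` gives, with `⟨ , b⟩`, `t = λ t`, so `n = 0`, but `n_r = 1`. `m = 3`: moreover `t = 1`,
`y - a - b = s n - b`; if it is `λ y + μ n = (λ s + μ) n + λ a` then `⟨ , a⟩` gives `-1 = 0`. -/
def S_wchain : Prop := ∀ {k : Type} [Field k] {W : Type} (n a b : W → Fin 4 → k)
  (r : W → Fin 4), (∀ w, IsWire (n w) (a w) (b w) (r w)) → ∀ ws : List W, ws.Nodup →
    ∀ g : MvPolynomial (W × Fin 4) k, (∀ x, eval x g ≠ 0 →
      ∀ w ∈ ws, eval x (wireProp false n a b w 3) ≠ 0) → RChain (wireList n a b ws) g

/-- [FY wdata] The wires of the graph satisfy the conditions `IsWire` (over any field), with the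
coordinate `rc c w`.

Proof: four cases, explicit vectors; `perp`: for `n = (1, 0, -j, 0)`, `a = (0, 0, 1, 0)`,
`b = (0, j, 0, 1)`: `⟨x, n⟩ = x_1 - j x_3`, so `x = x_0 n + (x_2 + j x_0) a + x_3 b`; similarly in the
other cases. -/
def S_wdata : Prop := ∀ {k : Type} [Field k] {Λ : Type} {M : ℕ}
  (c : Fin M → Wall Λ) (w : Wire Λ M),
  IsWire (fun i => (dir c w i : k)) (fun i => (av c w i : k)) (fun i => (bv c w i : k)) (rc c w)

/-! ## E. the graph -/

/-- [FY flowc] The flows on the graph: a family `y` on the edges (values in any commutative ring) is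
conserved iff it is the flow of its values on the first edges of the wires.

Proof. Expand `∑ e` over `Edge = (Wire × Fin 4) ⊕ (Gate × Fin 2) ⊕ Gate ⊕ Fin M`
(`Fintype.sum_sum_type`, `Fintype.sum_prod_type`, `Fin.sum_univ_four`), and over
`Wire = (Λ × Fin (3M+1)) ⊕ Gate ⊕ Gate`. Conservation at the vertices:
* `mid w i`: `y (ew w i.castSucc) = y (ew w i.succ)` (`i : Fin 3`);
* `copy (a, j)`: the edge that ends there is `ew (tw a j.castSucc) 3`; the edges that begin there
  are `ew (tw a j.succ) 0`, `ew (bw (a, j)) 0`, `ec (a, j) 0`;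
* `half p`: `y (ec p 0) = y (ec p 1)`;
* `conv p`: `y (ew (bw p) 3) = y (ew (cw p) 0) + y (ev p)`;
* `con τ`: `∑ over the gates p with vr c p.2 = p.1, wallOf p.2 = τ of y (ew (cw p) 3) = y (et τ)`;
  these gates are the `(vr c (pos τ i), pos τ i)`, `i : Fin 3`;
* `root`: follows from the others, because the sum over all vertices of both sides is `∑_e y e`
  (`Finset.sum_comm`, `Finset.sum_ite_eq`). -/
def S_flowc : Prop := ∀ {R : Type} [CommRing R] {Λ : Type} [Fintype Λ] {M : ℕ} (f : Bool)
  (c : Fin M → Wall Λ) (y : Edge Λ M → R),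
  (graph f c).Conserved y ↔ y = flow c (fun w => y (ew w 0))

/-- [FY loops] The number of loops of the graph is the number of wires. Uses `S_flowc`.

Proof: `y ↦ (w ↦ y (ew w 0))` and `x ↦ flow c x` are inverse linear isomorphisms between
`cycles (graph f c)` (`loops_eq`) and `Wire Λ M → ℚ` (`flow c x (ew w 0) = x w`);
`Module.finrank_fintype_fun_eq_card`, `LinearEquiv.finrank_eq`. -/
def S_loops : Prop := ∀ {Λ : Type} [Fintype Λ] {M : ℕ} (f : Bool) (c : Fin M → Wall Λ),
  (graph f c).loops = Fintype.card (Wire Λ M)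

/-- [FY irr] The graph is one-particle irreducible. Uses `S_flowc`.

Proof. Connected: each vertex is joined to `root`: `half p` by `ec p 1`, `copy p` by `ec p 0` and
`half p`, `conv p` by `ev p`, `con τ` by `et τ`, the beginning `wsrc w` of a wire is `root`, a `copy`
or a `conv`, and `mid w 0`, `mid w 1`, `mid w 2` are joined to it by `ew w 0`, `ew w 1`, `ew w 2`.
Bridgeless: each edge `e` has a flow `flow c x` (conserved by `S_flowc`) with a nonzero value at
`e`: `ew w i`: `x = 1` at `w`, `0` elsewhere; `ec p i`: `x = 1` at `bw p`, value `-1`; `ev p`: the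
same, value `1`; `et τ`: `x = 1` at `cw (vr c (pos τ 0), pos τ 0)` and `0` elsewhere, value `1`
(`pos τ i ≠ pos τ 0` for `i ≠ 0`). -/
def S_irr : Prop := ∀ {Λ : Type} [Fintype Λ] {M : ℕ} (f : Bool) (c : Fin M → Wall Λ),
  (graph f c).Irreducible

/-- [FY giso] The complement of the propagators and the maximal cut of the graph in the
coordinates of the wires. Uses `S_flowc`.

Proof: the flows are the `flow c x`, `x : Wire × Fin 4 → k` (componentwise: for each `j : Fin 4`
the family `e ↦ z (e, j)` is the flow of `w ↦ z (ew w 0, j)`), a polynomial (linear) map with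
inverse `z ↦ ((w, j) ↦ z (ew w 0, j))`; and `eval x (wden k f c e) = eval (flow c x) (den k e)`
(`eval` of `bind₁`, `flowPoly`). For the complement the last coordinate is kept. -/
def S_giso : Prop := ∀ {k : Type} [Field k] {Λ : Type} [Fintype Λ] {M : ℕ} (f : Bool)
  (c : Fin M → Wall Λ),
  Iso ((graph f c).complSet_alg k)
    (us_alg ([] : List (MvPolynomial (Wire Λ M × Fin 4) k)) (∏ e, wden k f c e)) ∧
  Iso ((graph f c).cutSet_alg k)
    (zs_alg ((Finset.univ.toList : List (Edge Λ M)).map (wden k f c)))

/-- [FY elist] The four lists of edges together contain each edge exactly once. -/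
def S_elist : Prop := ∀ {Λ : Type} [Fintype Λ] {M : ℕ},
  (wireEdges ++ gateEdges ++ conEdges ++ topEdges : List (Edge Λ M)).Nodup ∧
    ∀ e : Edge Λ M, e ∈ wireEdges ++ gateEdges ++ conEdges ++ topEdges

/-- [FY wireq] The denominators of the propagators of the wires.

Proof: unfold; `wden k f c (ew w i)` is `(X_(w, ·) + wsh f ... i)^2`. (The values of `wsh` are
mapped by the ring homomorphism `ℤ → k`; the first three do not depend on `f`.) -/
def S_wireq : Prop := ∀ {k : Type} [Field k] {Λ : Type} [Fintype Λ] {M : ℕ} (f : Bool)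
  (c : Fin M → Wall Λ),
  ((wireEdges : List (Edge Λ M)).map (wden k f c) =
    wireList (fun w i => (dir c w i : k)) (fun w i => (av c w i : k))
      (fun w i => (bv c w i : k)) Finset.univ.toList) ∧
  ∀ (w : Wire Λ M) (i : Fin 4), wden k f c (ew w i) =
    wireProp f (fun w i => (dir c w i : k)) (fun w i => (av c w i : k))
      (fun w i => (bv c w i : k)) w i

/-- [FY gateq] The denominators of the copy gates and converters on the points `(c_w n_w)`.

Proof: substitute. Copy gate `(a, j)`: the momentum is
`K = c_t (1,0,-j,0) - c_t' (1,0,-(j+1),0) - c_b (0,0,1,0) = (K_0, 0, K_2, 0)` with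
`K_0 = c_t - c_t'`, `K_2 = -j c_t + (j+1) c_t' - c_b`; `(K + (0,1,0,0))^2 = K_0`,
`(K + (0,0,0,1))^2 = K_2`. Converter: `K = c_b (0,0,1,0) - c_c n`, `n` the direction of the kind of
the position; in the three cases `(K + shift)^2 = c_b - c_c`. To prove equality of polynomials:
`MvPolynomial.funext` (the field is infinite) or expand and `ring`. -/
def S_gateq : Prop := ∀ {k : Type} [Field k] [CharZero k] {Λ : Type} [Fintype Λ] {M : ℕ}
  (f : Bool) (c : Fin M → Wall Λ),
  ((gateEdges : List (Edge Λ M)).map (wden k f c)).map (bind₁ (linePoly k c)) = gateList k Λ M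

/-- [FY coneq] The denominators of the walls on the points `(c_w n_w)`.

Proof: let `x_i` be the coordinate of the wire `cw (vr c (pos τ i), pos τ i)`. The slots `0`, `1`, `2`
of `τ` have kinds `0`, `1` (product) or `0` (sum), `2`. Product: `K = (x_0, x_1, x_2, 0)`,
`(K + (0,0,d,-1))^2 = x_0 x_1 - x_2 - d`. Sum: `K = (x_0 + x_1, 0, x_2, 0)`,
`(K + (0,1,d,-1))^2 = x_0 + x_1 - x_2 - d`. (`wallOf (pos τ i) = τ`, `slotOf (pos τ i) = i` by
`Equiv.symm_apply_apply`.) -/
def S_coneq : Prop := ∀ {k : Type} [Field k] [CharZero k] {Λ : Type} [Fintype Λ] {M : ℕ}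
  (f : Bool) (c : Fin M → Wall Λ) (τ : Fin M),
  bind₁ (linePoly k c) (wden k f c (et τ)) = conPoly k c τ

/-- [FY gchain] The equations of the gates on `k^Wire`: they are a chain and their zero set
consists of the points with `x_w = y_(variable of w)`. Uses `S_pv`.

Proof. Chain by `S_pv`: if `gateList = acc ++ t :: rest` there is a gate `(a, j)` and an index
`i < 3` such that `t = gatePoly (a, j) i`, and the members of `acc` are the `gatePoly (a', j') i'`
with `a'` before `a` in the list, or `a' = a` and `j' < j`, or `(a', j') = (a, j)` and `i' < i`.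
Private variables: `i = 0`: `tw a j.succ` (derivative `-1`); `i = 1`: `bw (a, j)` (derivative
`-1`); `i = 2`: `cw (a, j)` (derivative `-1`). Zero set: from the first equations
`x_(tw a j) = x_(tw a 0)` for all `j` (`Fin.induction`), then the second gives
`x_(bw (a, j)) = x_(tw a 0)`, the third `x_(cw (a, j)) = x_(tw a 0)`; put `y_a = x_(tw a 0)`.
The converse is a calculation. -/
def S_gchain : Prop := ∀ {k : Type} [Field k] {Λ : Type} [Fintype Λ] {M : ℕ},
  Chain (gateList k Λ M) ∧ ∀ x : Wire Λ M → k, x ∈ zs (gateList k Λ M) ↔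
    ∃ y : Λ → k, ∀ w, x w = y (wvar w)

/-- The product of the fourth propagators of the wires. -/
def topProd (k : Type) [Field k] {Λ : Type} [Fintype Λ] {M : ℕ} (c : Fin M → Wall Λ) :
    MvPolynomial (Wire Λ M × Fin 4) k :=
  ((topEdges : List (Edge Λ M)).map (wden k false c)).prod

/-- [FY final] All propagators of the graph, in the coordinates of the wires. Uses `S_rct`, `S_ct`,
`S_wzero`, `S_wchain`, `S_wdata`, `S_wireq`, `S_gateq`, `S_coneq`, `S_gchain`.

Proof. Let `l` be the list in the first two statements, `l = l1 ++ (l2 ++ l3)` (wires, gates, walls),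
`g = topProd`, and let `Φ : k^Wire → k^(Wire × Fin 4)` be given by `linePoly`,
`Ψ : k^Λ → k^Wire` by `y ↦ (y_(wvar w))_w`.
(1) `{x ∈ zs l1 | g(x) ≠ 0}` is the image of `Φ` (`S_wireq`, `S_wzero`; all wires are in
`univ.toList`), `g = (-1)^|Wire|` on the image, and `l1` is a chain relative to `g` (`S_wireq`,
`S_wchain`, `Finset.nodup_toList`). (2) `l2 ∘ Φ = gateList` is a chain with
zero set the image of `Ψ` (`S_gateq`, `S_gchain`). (3) `l3 ∘ Φ ∘ Ψ` is the list of the equations of
the walls `c τ` (`S_coneq`; `wvar (cw (vr c (pos τ i), pos τ i)) = slot (c τ) i`), i.e.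
`wl k (List.ofFn c)` (`List.map` over `List.finRange`). (a) `S_ct`:
`l2 ∘ Φ ++ l3 ∘ Φ` is a chain on `k^Wire`, then `S_rct`. (b) The isomorphism from
`zs (wl k (List.ofFn c))` to `us l g` is `y ↦ (Φ(Ψ(y)), (-1)^|Wire|)`, the inverse is
`(x, u) ↦ (x_(tw a 0, 0))_a` (the direction of `tw a 0` is `(1, 0, 0, 0)`). (c) The maximal cut: for
`f = true` all four propagators of the wires vanish iff `x` is in the image of `Φ`; the gates and
walls as before. -/
def S_final : Prop := ∀ {k : Type} [Field k] [CharZero k] {Λ : Type} [Fintype Λ] {M : ℕ}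
  (c : Fin M → Wall Λ),
  Iso (us_alg ((wireEdges ++ gateEdges ++ conEdges : List (Edge Λ M)).map (wden k false c))
    (topProd k c)) (zs_alg (wl k (List.ofFn c))) ∧
  (Chain (wl k (List.ofFn c)) →
    RChain ((wireEdges ++ gateEdges ++ conEdges : List (Edge Λ M)).map (wden k false c))
      (topProd k c)) ∧
  Iso (zs_alg ((Finset.univ.toList : List (Edge Λ M)).map (wden k true c)))
    (zs_alg (wl k (List.ofFn c)))

/-- [FY gr] Every system of walls which is a chain is a cut of a Feynman graph, and the system of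
the propagators is a relative chain; and every system of walls is the maximal cut of a Feynman
graph. Uses `S_loops`, `S_irr`, `S_giso`, `S_elist`, `S_final`.

Proof: `G = graph f c` with `c = S.get`, `List.ofFn S.get = S`; `f = false` and `true`.
`l = (wireEdges ++ gateEdges ++ conEdges).map (wden k false c)`, `g = topProd k c`;
`l.prod * g = ∏ e, wden k false c e` (`S_elist`). Number of coordinates: `|Wire × Fin 4| =
4 |Wire| = 4 loops`. Count: `|Wire| = Λ (3M + 1) + 2 · 3 M Λ`, `|l| = 3 |Wire| + 2 · 3MΛ +
3MΛ + M`, so `4 |Wire| - |l| = |Wire| - 9 M Λ - M = Λ - M` (with `Λ` for `|Λ|`). -/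
def S_gr : Prop := ∀ {k : Type} [Field k] [CharZero k] {Λ : Type} [Finite Λ]
  (S : List (Wall Λ)),
  (Chain (wl k S) → ∃ (G : Feynman) (ι : Type) (_ : Finite ι) (l : List (MvPolynomial ι k))
    (g : MvPolynomial ι k), G.Irreducible ∧ RChain l g ∧ Nat.card ι = 4 * G.loops ∧
      (Nat.card ι : ℤ) - l.length = Nat.card Λ - S.length ∧
      Iso (G.complSet_alg k) (us_alg [] (l.prod * g)) ∧ Iso (us_alg l g) (zs_alg (wl k S))) ∧
  ∃ G : Feynman, G.Irreducible ∧ Iso (G.cutSet_alg k) (zs_alg (wl k S))

/-! ## F. the geometric theorem -/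

section Geo

variable {A : Type u} [Category.{v} A] [Abelian A] [MonoidalCategory A]
  [MonoidalPreadditive A] [SymmetricCategory A]

/-- [FY geo] For every object `N` some `N ⊗ L^e` is a subquotient of `h^(4b)` of the complement of
the propagators of a Feynman graph, and of `h^n` of the complement of walls in `A^n`.  Uses
`S_geo1`, `S_hyp`, `S_lef`, `S_prog`, `S_reidx`, `S_gr`, `S_rl`, `S_ci`, `S_reg`, `S_subq`,
`S_twist`, `S_tensmono`.

Proof. `S_geo1`: `N ⊗ L^e` is a subquotient of `h^i(V)`, `V = zs [F]` (`S_hyp`). If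
`i > dim V = n + r - 1` then `h^i(V) = 0` (`artin`), so `N ⊗ L^e = 0`, a subquotient of anything
(take the graph of the empty system, and the empty arrangement). Otherwise `S_lef`: `h^i(V)`
embeds into `h^i(zs p)`, `p = F :: m`, a chain, of dimension `i`. `S_prog` gives `S` with
`zs p ≅ zs S`, a chain, `|Λ| - |S| = i`. For the walls: `S_rl` with `l = wl S`, `g = 1` (reindex the
variables by `Λ ≃ Fin n`, `S_reidx`). For the graph: `S_gr` gives `G`, `l`, `g` with
`compl G ≅ us [] (l.prod * g)` and `us l g ≅ zs S`; `S_rl`: `h^(4b)(compl G) → h^i(us l g) ⊗ L^|l|` is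
epi, and `(N ⊗ L^e) ⊗ L^|l|` is a subquotient of `h^i(us l g) ⊗ L^|l|`. -/
def S_geo (T : CohTheoryL QBar A) : Prop := ∀ N : A,
  (∃ (e : ℕ) (G : Feynman), G.Irreducible ∧ IsSubquot (N ⊗ tpow T.L e)
    ((T.h (4 * G.loops)).obj (op (G.compl QBar)))) ∧
  (∃ (e n r : ℕ) (c : Fin r → Wall (Fin n)), IsSubquot (N ⊗ tpow T.L e)
    ((T.h n).obj (op (wallPair QBar c))))

/-- [FY geoc] For every object `N` some `N ⊗ L^e` is a subquotient of `h^i` of the maximal cut of a
Feynman graph. Uses `S_geo1`, `S_hyp`, `S_prog`, `S_gr`, `S_subq`. -/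
def S_geoc (T : CohTheory QBar A) : Prop := ∀ N : A,
  ∃ (e : ℕ) (G : Feynman) (i : ℤ), G.Irreducible ∧ IsSubquot (N ⊗ tpow T.L e)
    ((T.h i).obj (op (G.cut QBar)))

end Geo

end

end Pool.Agent.Lib.MP_ae0f86_nt.F
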