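import Pool.Agent.Lib.MP_ae0f86_nt.F.Cls
import Pool.Agent.Lib.MP_ae0f86_nt.F.Stm
import Pool.Agent.Lib.MP_ae0f86_nt.F.P.ci
import Pool.Agent.Lib.MP_ae0f86_nt.F.P.reg
import Pool.Agent.Lib.MP_ae0f86_nt.F.P.pv
import Pool.Agent.Lib.MP_ae0f86_nt.F.P.ct
import Pool.Agent.Lib.MP_ae0f86_nt.F.P.rct
import Pool.Agent.Lib.MP_ae0f86_nt.F.P.usci
import Pool.Agent.Lib.MP_ae0f86_nt.F.P.res
import Pool.Agent.Lib.MP_ae0f86_nt.F.P.rl
import Pool.Agent.Lib.MP_ae0f86_nt.F.P.lef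
import Pool.Agent.Lib.MP_ae0f86_nt.F.P.pstep
import Pool.Agent.Lib.MP_ae0f86_nt.F.P.pext
import Pool.Agent.Lib.MP_ae0f86_nt.F.P.prog
import Pool.Agent.Lib.MP_ae0f86_nt.F.P.reidx
import Pool.Agent.Lib.MP_ae0f86_nt.F.P.hyp
import Pool.Agent.Lib.MP_ae0f86_nt.F.P.wzero
import Pool.Agent.Lib.MP_ae0f86_nt.F.P.wchain
import Pool.Agent.Lib.MP_ae0f86_nt.F.P.wdata
import Pool.Agent.Lib.MP_ae0f86_nt.F.P.flowc
import Pool.Agent.Lib.MP_ae0f86_nt.F.P.loops
import Pool.Agent.Lib.MP_ae0f86_nt.F.P.irr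
import Pool.Agent.Lib.MP_ae0f86_nt.F.P.giso
import Pool.Agent.Lib.MP_ae0f86_nt.F.P.elist
import Pool.Agent.Lib.MP_ae0f86_nt.F.P.wireq
import Pool.Agent.Lib.MP_ae0f86_nt.F.P.gateq
import Pool.Agent.Lib.MP_ae0f86_nt.F.P.coneq
import Pool.Agent.Lib.MP_ae0f86_nt.F.P.gchain
import Pool.Agent.Lib.MP_ae0f86_nt.F.P.final
import Pool.Agent.Lib.MP_ae0f86_nt.F.P.gr
import Pool.Agent.Lib.MP_ae0f86_nt.F.P.geo
import Pool.Agent.Lib.MP_ae0f86_nt.F.P.geoc
import Pool.Agent.Lib.MP_ae0f86_nt.F.P.per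

/-!
# MP_ae0f86_nt, project FEYNMAN: assembly
-/

open CategoryTheory CategoryTheory.Limits MvPolynomial Opposite MonoidalCategory

universe v u

namespace Pool.Agent.Lib.MP_ae0f86_nt.F

attribute [local instance] CategoryTheory.Abelian.hasFiniteBiproducts

theorem main_prog : S_prog := p_prog (p_pext p_pstep) p_ct

theorem main_gr : S_gr :=
  p_gr (p_loops p_flowc) (p_irr p_flowc) (p_giso p_flowc) p_elist
    (p_final p_rct p_ct p_wzero p_wchain p_wdata p_wireq p_gateq p_coneq (p_gchain p_pv))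

/-- Every system of polynomial equations with rational integer coefficients is the maximal cut of
a massless one-particle irreducible Feynman graph. -/
theorem main_cut {k : Type} [Field k] [CharZero k] {σ : Type} [Finite σ]
    (p : List (MvPolynomial σ ℤ)) : ∃ G : Feynman, G.Irreducible ∧
      Nonempty (G.cut k ≅ AffPair.abs (zs_alg (p.map (MvPolynomial.map (Int.castRingHom k))))) := by
  obtain ⟨κ, hκ, S, -, ⟨i1⟩, -⟩ := main_prog (k := k) p
  obtain ⟨-, G, hG, ⟨i2⟩⟩ := main_gr (k := k) S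
  exact ⟨G, hG, ⟨i2 ≪≫ i1.symm⟩⟩

section Geo

variable {A : Type u} [Category.{v} A] [Abelian A] [MonoidalCategory A]
  [MonoidalPreadditive A] [SymmetricCategory A]

theorem main_geo (T : CohTheoryL QBar A) : S_geo T :=
  p_geo T (main_geo1 T.toCohTheory) p_hyp (p_lef T p_ci) main_prog p_reidx main_gr
    (p_rl T p_reg (p_res T p_usci) (p_tensmono T.toCohTheory)) p_ci p_reg p_subq
    (p_twist T.toCohTheory) (p_tensmono T.toCohTheory)

theorem main_geoc (T : CohTheory QBar A) : S_geoc T :=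
  p_geoc T (main_geo1 T) p_hyp main_prog main_gr p_subq

end Geo

variable {A : Type u} [Category.{v} A] [Abelian A] [Linear ℚ A] [MonoidalCategory A]
  [MonoidalPreadditive A] [SymmetricCategory A] [RigidCategory A]
  {HdR : A ⥤ ModuleCat.{0} QBar} {HB : A ⥤ ModuleCat.{0} ℚ} [FibreFunctor HdR]
  [FibreFunctor HB] (c : Comparison HdR HB)

/-- Every object is, up to a twist, a subquotient of the cohomology of the complement of the
propagators of a graph, and its periods are, up to a power of the period of `L`, periods of it. -/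
theorem main_uni (T : CohTheoryL QBar A) : ∃ lam ∈ c.Per T.L, lam ≠ 0 ∧
    ∀ N : A, ∃ (e : ℕ) (G : Feynman), G.Irreducible ∧
      IsSubquot (N ⊗ tpow T.L e) ((T.h (4 * G.loops)).obj (op (G.compl QBar))) ∧
      ∀ z ∈ c.Per N, lam ^ e * z ∈ c.Per ((T.h (4 * G.loops)).obj (op (G.compl QBar))) := by
  obtain ⟨lam, h1, h2⟩ := per_inv c T.tateIso
  refine ⟨lam, h1, h2, fun N => ?_⟩
  obtain ⟨e, G, hG, h⟩ := (main_geo T N).1
  exact ⟨e, G, hG, h, fun z hz => per_main c h1 e h hz⟩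

theorem main (T : CohTheoryL QBar A) : List.TFAE [
    ∀ M : A, PeriodConjecture c M,
    EvInjective c,
    ForFeynman T.toCohTheory (PeriodConjecture c),
    ForFeynman T.toCohTheory (PeriodDimension c),
    ForFeynman T.toCohTheory (VanishTrivially c),
    ForCuts T.toCohTheory (PeriodConjecture c),
    ForCuts T.toCohTheory (PeriodDimension c),
    ForCuts T.toCohTheory (VanishTrivially c),
    ForWalls T.toCohTheory (PeriodConjecture c),
    ForWalls T.toCohTheory (PeriodDimension c),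
    ForWalls T.toCohTheory (VanishTrivially c),
    ForCubics T.toCohTheory (PeriodConjecture c),
    ForCubics T.toCohTheory (PeriodDimension c),
    ForCubics T.toCohTheory (VanishTrivially c)] := by
  have h1 := classTFAE c T.L T.tate T.tateIso
    (fun W => ∃ G : Feynman, G.Irreducible ∧
      W = (T.h (4 * G.loops)).obj (op (G.compl QBar)))
    (fun N => by
      obtain ⟨e, G, hG, h⟩ := (main_geo T N).1
      exact ⟨e, _, ⟨G, hG, rfl⟩, h⟩)
  have h2 := classTFAE c T.L T.tate T.tateIso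
    (fun W => ∃ (G : Feynman) (i : ℤ), G.Irreducible ∧ W = (T.h i).obj (op (G.cut QBar)))
    (fun N => by
      obtain ⟨e, G, i, hG, h⟩ := main_geoc T.toCohTheory N
      exact ⟨e, _, ⟨G, i, hG, rfl⟩, h⟩)
  have h3 := classTFAE c T.L T.tate T.tateIso
    (fun W => ∃ (n r : ℕ) (d : Fin r → Wall (Fin n)),
      W = (T.h n).obj (op (wallPair QBar d)))
    (fun N => by
      obtain ⟨e, n, r, d, h⟩ := (main_geo T N).2
      exact ⟨e, _, ⟨n, r, d, rfl⟩, h⟩)
  have h4 := Pool.Agent.Lib.MP_ae0f86_nt.main c T.toCohTheory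
  have f1 : ∀ P : A → Prop, (∀ W, (∃ G : Feynman, G.Irreducible ∧
      W = (T.h (4 * G.loops)).obj (op (G.compl QBar))) → P W) ↔ ForFeynman T.toCohTheory P :=
    fun P => ⟨fun h G hG => h _ ⟨G, hG, rfl⟩,
      fun h W hW => by obtain ⟨G, hG, rfl⟩ := hW; exact h G hG⟩
  have f2 : ∀ P : A → Prop, (∀ W, (∃ (G : Feynman) (i : ℤ), G.Irreducible ∧
      W = (T.h i).obj (op (G.cut QBar))) → P W) ↔ ForCuts T.toCohTheory P :=
    fun P => ⟨fun h G hG i => h _ ⟨G, i, hG, rfl⟩,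
      fun h W hW => by obtain ⟨G, i, hG, rfl⟩ := hW; exact h G hG i⟩
  have f3 : ∀ P : A → Prop, (∀ W, (∃ (n r : ℕ) (d : Fin r → Wall (Fin n)),
      W = (T.h n).obj (op (wallPair QBar d))) → P W) ↔ ForWalls T.toCohTheory P :=
    fun P => ⟨fun h n r d => h _ ⟨n, r, d, rfl⟩,
      fun h W hW => by obtain ⟨n, r, d, rfl⟩ := hW; exact h n r d⟩
  tfae_have 1 ↔ 2 := h1.out 0 1
  tfae_have 1 ↔ 3 := (h1.out 0 2).trans (f1 _)
  tfae_have 1 ↔ 4 := (h1.out 0 3).trans (f1 _)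
  tfae_have 1 ↔ 5 := (h1.out 0 4).trans (f1 _)
  tfae_have 1 ↔ 6 := (h2.out 0 2).trans (f2 _)
  tfae_have 1 ↔ 7 := (h2.out 0 3).trans (f2 _)
  tfae_have 1 ↔ 8 := (h2.out 0 4).trans (f2 _)
  tfae_have 1 ↔ 9 := (h3.out 0 2).trans (f3 _)
  tfae_have 1 ↔ 10 := (h3.out 0 3).trans (f3 _)
  tfae_have 1 ↔ 11 := (h3.out 0 4).trans (f3 _)
  tfae_have 1 ↔ 12 := h4.out 0 2
  tfae_have 1 ↔ 13 := h4.out 0 3
  tfae_have 1 ↔ 14 := h4.out 0 4
  tfae_finish

end Pool.Agent.Lib.MP_ae0f86_nt.F
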