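import Pool.Agent.Lib.MP_ae0f86_nt.F.Stm
import Pool.Agent.Lib.MP_ae0f86_nt.F.Join
import Pool.Agent.Lib.MP_ae0f86_nt.Density

/-!
# MP_ae0f86_nt, project FS (one sequence of Feynman graphs): statements of the geometric pieces

The piece `[FS xxx]` is a theorem `j_xxx : S_jxxx` (with other pieces as hypotheses, when the
docstring says so), in the file `Lib/MP_ae0f86_nt/F/J/xxx.lean`, in the namespace
`Pool.Agent.Lib.MP_ae0f86_nt.F`.
-/

open CategoryTheory CategoryTheory.Limits MvPolynomial Opposite MonoidalCategory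

universe v u

namespace Pool.Agent.Lib.MP_ae0f86_nt.F

noncomputable section

attribute [local instance] CategoryTheory.Abelian.hasFiniteBiproducts

/-! ### joins -/

/-- [FS cons] A family on the edges of the join is conserved iff both restrictions are.

Proof. The sums over the edges split (`Fintype.sum_sum_type`). At the vertex `(v, r')` with
`v ≠ r` the second sum is zero (`(r, v') ≠ (v, r')`), and the condition is conservation of the first
restriction at `v`; similarly for `(r, v')`, `v' ≠ r'`. At `(r, r')` the condition is the sum of the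
two conditions at `r` and `r'` (`(v, r') = (r, r')` iff `v = r`). Finally, conservation at all
vertices `v ≠ r` implies conservation at `r`: the sum over all `v` of `∑_(tgt e = v) c e` is
`∑_e c e`, and the same for `src` (`Finset.sum_comm`, `Finset.sum_ite_eq`). -/
def S_jcons : Prop := ∀ (G G' : Rooted) {R : Type} [CommRing R] (c : G.E ⊕ G'.E → R),
  (G.join G').Conserved c ↔ G.Conserved (c ∘ Sum.inl) ∧ G'.Conserved (c ∘ Sum.inr)

/-- [FS loops] Loops of the join. Uses `S_jcons`.

Proof: `loops_eq`, and the linear isomorphism `cycles (G ∨ G') ≃ cycles G × cycles G'`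
(`LinearEquiv.sumArrowLequivProdArrow` restricted), `Module.finrank_prod`. -/
def S_jloops : Prop := ∀ G G' : Rooted, (G.join G').loops = G.loops + G'.loops

/-- [FS irr] The join of irreducible graphs is irreducible. Uses `S_jcons`.

Proof. Connected: with the base vertex `(r, r')`; each `v` is joined to `r` in `G` (both are joined
to the vertex of the hypothesis), map the path by `v ↦ (v, r')` (induction on `EqvGen`, or
`Relation.EqvGen.mono` and a map lemma); similarly for `G'`. Bridgeless: extend the flow by zero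
(`Sum.elim c 0`). -/
def S_jirr : Prop := ∀ G G' : Rooted, G.Irreducible → G'.Irreducible → (G.join G').Irreducible

/-- [FS compl] The complement of the propagators of the join is the product. Uses `S_jcons`.

Proof: for `z` on the edges of the join, `z` is in `momenta` iff both restrictions are (`S_jcons` for
each of the four components), and the product of the denominators is the product of the two
products (`Fintype.prod_sum_type`); the denominator of `inl e` at `z` is that of `e` at the
restriction. The isomorphism `Y → (G ∨ G').complSet` is `((x, u), (x', u')) ↦ ((x, x'), u u')`; the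
inverse is `((x, x'), w) ↦ ((x, w p'(x')), (x', w p(x)))`, where `p`, `p'` are the products of the
denominators of `G` and of `G'` (as polynomials). -/
def S_jcompl : Prop := ∀ {k : Type} [Field k] (G G' : Rooted)
  {Y : Set (((G.E × Fin 4) ⊕ Unit) ⊕ ((G'.E × Fin 4) ⊕ Unit) → k)} (hY : IsAlg Y),
  Y = {z | z ∘ Sum.inl ∈ G.complSet k ∧ z ∘ Sum.inr ∈ G'.complSet k} →
  Iso ((G.join G').complSet_alg k) hY

/-- [FS coord] The complement of the propagators in coordinates.

Proof. Let `b = G.loops = dim (cycles G)` (`loops_eq`), and let `L : (Fin b → ℚ) → (E → ℚ)` be the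
injective linear map with image `cycles G` given by a basis of `cycles G`
(`Module.finBasisOfFinrankEq`), with matrix entries `L e j`; let `ρ` be a left inverse
(`LinearMap.exists_leftInverse_of_injective`), with entries `ρ j e`. Let `L_k`, `ρ_k` be the linear
maps between `k^b` and `k^E` with the same matrices. `L_k x` is conserved for every `x ∈ k^b`
(it is a combination of the conserved columns), `ρ_k L_k = 1`, and `L_k ρ_k c = c` for
each conserved `c : E → k`: for every `ℚ`-linear map `φ : k → ℚ` the family `φ ∘ c` is conserved, so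
`φ ∘ c = L ρ (φ ∘ c) = φ ∘ (L_k ρ_k c)`, and the `φ` separate the points of `k`
(`Module.forall_dual_apply_eq_zero_iff`). So (componentwise, `j : Fin 4`) `x ↦ L_k x` is an
isomorphism `k^(b × 4) → momenta` with inverse `ρ_k`, and `g` is the product of the denominators
composed with `L_k`. The last coordinate of `complSet` and `us [] g` is kept. -/
def S_jcoord : Prop := ∀ {k : Type} [Field k] [CharZero k] (G : Feynman),
  ∃ g : MvPolynomial (Fin G.loops × Fin 4) k,
    Iso (G.complSet_alg k) (us_alg ([] : List (MvPolynomial (Fin G.loops × Fin 4) k)) g)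

/-- [FS equiv] Isomorphic graphs. Proof: the loops agree (`cycles G ≃ cycles G'` by
`c ↦ c ∘ g.symm`), and `complSet` are isomorphic by renaming the coordinates. -/
def S_jequiv : Prop := ∀ {k : Type} [Field k] (G G' : Feynman), G.Isomorphic G' →
  G.loops = G'.loops ∧ Iso (G.complSet_alg k) (G'.complSet_alg k)

section Coh

variable {A : Type u} [Category.{v} A] [Abelian A] [MonoidalCategory A]

/-- [FS art] Artin vanishing for the complement of the propagators. Uses `S_jcoord`, `S_usci`.

Proof: `S_jcoord`; `us_eq`; `S_usci` for `l = []` (`SmoothOn [] g` is clear: the family is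
indexed by `Fin 0`) gives that `ul [] g` is a smooth complete intersection of length `1` in
`k^(4b + 1)`; apply `artin`. -/
def S_jart (T : CohTheoryL QBar A) : Prop := ∀ (G : Feynman) (i : ℤ), 4 * (G.loops : ℤ) < i →
  IsZero ((T.h i).obj (op (G.compl QBar)))

/-- [FS ktop] The Künneth formula in the highest degree.

Proof: in `⨁_(i ≤ d + d') h^i(X) ⊗ h^(d + d' - i)(X')` all terms with `i ≠ d` vanish (if `i > d`
the first factor, if `i < d` the second; `0 ⊗ Y` and `X ⊗ 0` are zero, because `𝟙 ▷ Y`, `X ◁ 𝟙` are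
the identity and `0 ▷ Y = 0`, `X ◁ 0 = 0`); so the biproduct is isomorphic to the term `i = d`. -/
def S_jktop [MonoidalPreadditive A] (T : CohTheory QBar A) : Prop := T.KunnethFormula →
  ∀ {ι ι' : Type} [Finite ι] [Finite ι'] {X : Set (ι → QBar)} {X' : Set (ι' → QBar)}
    (hX : IsAlg X) (hX' : IsAlg X') {Y : Set (ι ⊕ ι' → QBar)} (hY : IsAlg Y),
    Y = {z | z ∘ Sum.inl ∈ X ∧ z ∘ Sum.inr ∈ X'} → ∀ d d' : ℕ,
    (∀ i : ℤ, (d : ℤ) < i → IsZero ((T.h i).obj (op (AffPair.abs hX)))) →
    (∀ i : ℤ, (d' : ℤ) < i → IsZero ((T.h i).obj (op (AffPair.abs hX')))) →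
    Nonempty ((T.h ((d : ℤ) + d')).obj (op (AffPair.abs hY)) ≅
      (T.h (d : ℤ)).obj (op (AffPair.abs hX)) ⊗ (T.h (d' : ℤ)).obj (op (AffPair.abs hX')))

/-- [FS top] The top cohomology of a join. Uses `S_jloops`, `S_jcompl`, `S_jart`, `S_jktop`.

Proof: `Y = {z | z ∘ inl ∈ G.complSet, z ∘ inr ∈ G'.complSet}` is algebraic (`IsAlg.cyl` and
`IsAlg.preimage`/`IsAlg.inter`); `S_jcompl`, and `S_jktop` with `d = 4 G.loops`,
`d' = 4 G'.loops` (casts). -/
def S_jtop [MonoidalPreadditive A] (T : CohTheoryL QBar A) : Prop :=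
  T.toCohTheory.KunnethFormula → ∀ G G' : Rooted,
    Nonempty ((G.join G').top T.toCohTheory ≅ G.top T.toCohTheory ⊗ G'.top T.toCohTheory)

/-- [FS pow] The top cohomology of the powers. Uses `S_jtop`. Proof: induction on `n`;
`tpow X 1 = 𝟙_ A ⊗ X ≅ X` (`λ_`), `tpow X (n + 2) = tpow X (n + 1) ⊗ X`. -/
def S_jpow [MonoidalPreadditive A] (T : CohTheoryL QBar A) : Prop :=
  T.toCohTheory.KunnethFormula → ∀ (G : Rooted) (n : ℕ),
    Nonempty ((G.power n).top T.toCohTheory ≅ tpow (G.top T.toCohTheory) (n + 1))

/-- [FS cof] Cofinality of the sequence. Uses `S_geo`, `S_jtop`, `S_jequiv`, `S_subq`.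

Proof. If `N` is zero take `k₀ = 0`, `Y = 𝟙_ A` (`N ⊗ Y` is zero, so it is a subquotient of
everything: `0 : N ⊗ Y ⟶ X` is mono; and `𝟙_ A` is not zero, `hten` applied to ... or since
`H 0` has a nonzero object: if `𝟙_ A` were zero then `X ≅ X ⊗ 𝟙_ A` would be zero for all `X`).
Otherwise `S_geo` gives an irreducible `G` such that `N ⊗ L^e` is a subquotient of `G.top`; by
`hten` and since `L^e` is not zero (`L ⊗ tate ≅ 𝟙_`) `N ⊗ L^e` is not zero, so `G.top` is not zero
(a subquotient of a zero object is zero), and `G` is isomorphic to some `H j`; `S_jequiv` gives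
`G.top ≅ (H j).top`. For `k ≥ j` there is `R` with `R` not zero and
`(partialJoin H k).top ≅ (H j).top ⊗ R` (induction on `k`, starting with `k = j`: `R = 𝟙_` if
`j = 0`, `R = (partialJoin H (j - 1)).top` with the braiding if `j > 0`; step: `S_jtop`, `α`; `R` is not
zero by `hten`, and `(partialJoin H k).top` is not zero by the same induction). Then
`N ⊗ (L^e ⊗ R) ≅ (N ⊗ L^e) ⊗ R` is a subquotient of `(H j).top ⊗ R` (`hexact`), and
`Y = L^e ⊗ R` is not zero. -/
def S_jcof [MonoidalPreadditive A] [SymmetricCategory A] (T : CohTheoryL QBar A) : Prop :=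
  T.toCohTheory.KunnethFormula →
  (∀ X Y : A, ¬ IsZero X → ¬ IsZero Y → ¬ IsZero (X ⊗ Y)) →
  (∀ (X X' Y : A) (f : X ⟶ X'), (Mono f → Mono (f ▷ Y)) ∧ (Epi f → Epi (f ▷ Y))) →
  ∀ H : ℕ → Rooted, (∀ k, (H k).Irreducible ∧ ¬ IsZero ((H k).top T.toCohTheory)) →
  (∀ G : Feynman, G.Irreducible → ¬ IsZero (G.top T.toCohTheory) →
    ∃ k, G.Isomorphic (H k).toFeynman) →
  ∀ N : A, ∃ k₀ : ℕ, ∀ k, k₀ ≤ k → ∃ Y : A, ¬ IsZero Y ∧
    IsSubquot (N ⊗ Y) ((Rooted.partialJoin H k).top T.toCohTheory)

end Coh

/-- [FS ften] Consequences of the existence of a fibre functor.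

Proof: `HB` is faithful, additive and exact, so it reflects zero objects (`𝟙 X = 0` iff
`HB.map (𝟙 X) = 0`), monomorphisms and epimorphisms (e.g. `kernel.ι f`, zero iff its source is, and
`HB` preserves kernels; or `Functor.reflectsMonomorphisms_of_faithful`). `HB (X ⊗ Y)` is
`HB X ⊗_ℚ HB Y` by `FibreFunctor.bij`, naturally (`FibreFunctor.mul_nat`), the tensor product of
nonzero vector spaces is nonzero, and `f ⊗ 1` is injective (surjective) if `f` is
(`Module.Flat.rTensor_preserves_injective_linearMap`, `LinearMap.rTensor_surjective`). -/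
def S_jften {A : Type u} [Category.{v} A] [Abelian A] [MonoidalCategory A] [SymmetricCategory A]
    (HB : A ⥤ ModuleCat.{0} ℚ) [FibreFunctor HB] : Prop :=
  (∀ X : A, IsZero X ↔ ∀ x : HB.obj X, x = 0) ∧
  (∀ X Y : A, ¬ IsZero X → ¬ IsZero Y → ¬ IsZero (X ⊗ Y)) ∧
  (∀ (X X' Y : A) (f : X ⟶ X'), (Mono f → Mono (f ▷ Y)) ∧ (Epi f → Epi (f ▷ Y)))

end

end Pool.Agent.Lib.MP_ae0f86_nt.F
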