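import Pool.Agent.Lib.MP_ae0f86_nt.F.Defs

/-!
# MP_ae0f86_nt : definitions for the theorem on one sequence of Feynman graphs
-/

open CategoryTheory CategoryTheory.Limits Opposite MonoidalCategory

universe v u

namespace Pool.Agent.Lib.MP_ae0f86_nt

noncomputable section

attribute [local instance] CategoryTheory.Abelian.hasFiniteBiproducts

section Numbers

variable {A : Type u} [Category.{v} A] [Abelian A] [MonoidalCategory A] [SymmetricCategory A]
  {HdR : A ⥤ ModuleCat.{0} QBar} {HB : A ⥤ ModuleCat.{0} ℚ} [FibreFunctor HdR]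
  [FibreFunctor HB]

/-- `P(γ)`, the number of linearly independent integrals over the cycle `γ ∈ H_B(W)^∨`: the
dimension of the vector space over `QBar` spanned by the periods `γ(ω)`, `ω ∈ H_dR(W)`. -/
def integralRank (c : Comparison HdR HB) {W : A} (γ : BDual HB W) : ℕ :=
  Set.finrank QBar {z : ℂ | ∃ ω : HdR.obj W, c.val ω γ = z}

omit [Abelian A] [MonoidalCategory A] [SymmetricCategory A] [FibreFunctor HB] in
/-- `N(γ)`, the number of linearly independent integrals over the cycle `γ ∈ H_B(W)^∨` expected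
from the period conjecture: the least rank of an object `Q` such that `γ` is the inverse image of an
element of `H_B(Q)^∨` under a morphism `W ⟶ Q`. -/
def expectedRank (HB : A ⥤ ModuleCat.{0} ℚ) {W : A} (γ : BDual HB W) : ℕ :=
  sInf {d | ∃ (Q : A) (q : W ⟶ Q) (δ : BDual HB Q),
    δ.pull q = γ ∧ Module.finrank ℚ (HB.obj Q) = d}

/-- The number of connected components of the torsor `X(M) = Spec (PerAlg H_dR H_B ⟨M⟩)`. -/
def numComponents [RigidCategory A] (HdR : A ⥤ ModuleCat.{0} QBar) (HB : A ⥤ ModuleCat.{0} ℚ)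
    [FibreFunctor HdR] [FibreFunctor HB] (M : A) : ℕ :=
  Nat.card (_root_.ConnectedComponents (PrimeSpectrum (PerAlg HdR HB (Gen M))))

/-- The dimension formula `dim G(M) = trdeg ℚ(Per M)`, one half of Q1 for `M`. -/
def DimTrdeg [RigidCategory A] (c : Comparison HdR HB) (M : A) : Prop :=
  ringKrullDim (PerAlg HB HB (Gen M)) =
    ((Cardinal.toENat (Algebra.trdeg ℚ (IntermediateField.adjoin ℚ (c.Per M))) : ℕ∞) :
      WithBot ℕ∞)

end Numbers

/-- The Künneth formula `h^m(X × X') ≅ ⨁_{i + i' = m} h^i(X) ⊗ h^{i'}(X')` for affine algebraic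
sets. -/
def CohTheory.KunnethAffine {k : Type} [Field k] {A : Type u} [Category.{v} A] [Abelian A]
    [MonoidalCategory A] (T : CohTheory k A) : Prop :=
  ∀ {ι ι' : Type} [Finite ι] [Finite ι'] {X : Set (ι → k)} {X' : Set (ι' → k)} (hX : IsAlg X)
    (hX' : IsAlg X') {Y : Set (ι ⊕ ι' → k)} (hY : IsAlg Y),
    Y = {z | z ∘ Sum.inl ∈ X ∧ z ∘ Sum.inr ∈ X'} → ∀ m : ℕ,
    Nonempty ((T.h (m : ℤ)).obj (op (AffPair.abs hY)) ≅
      ⨁ fun i : Fin (m + 1) => (T.h ((i : ℕ) : ℤ)).obj (op (AffPair.abs hX)) ⊗
        (T.h ((m : ℤ) - ((i : ℕ) : ℤ))).obj (op (AffPair.abs hX')))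

/-- `J` is a sum of the graphs `G i`: the edges of `J` are the edges of the `G i`, with the same
momenta, and the flows on `J` are the families of flows on the `G i`. (For instance `J` arises from
the disjoint union of the `G i` by identifying one vertex of each of them. For one graph `G` this
says that `J` and `G` have the same edges, momenta and flows, for instance that they are
isomorphic.) -/
def Feynman.IsSum {I : Type} (G : I → Feynman) (J : Feynman) : Prop :=
  ∃ g : (Σ i, (G i).E) ≃ J.E, (∀ x : Σ i, (G i).E, J.a (g x) = (G x.1).a x.2) ∧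
    ∀ c : J.E → ℚ, J.Conserved c ↔ ∀ i, (G i).Conserved fun e => c (g ⟨i, e⟩)

/-- `H 0`, `H 1`, ... are one-particle irreducible graphs with `h^(4b)(U) ≠ 0`, and each such graph
is, up to an isomorphism, one of them (repetitions are allowed). -/
def Feynman.Listing {A : Type u} [Category.{v} A] [Abelian A] [MonoidalCategory A]
    (T : CohTheory QBar A) (H : ℕ → Feynman) : Prop :=
  (∀ k, (H k).Irreducible ∧ ¬ IsZero ((H k).top T)) ∧
  ∀ G : Feynman, G.Irreducible → ¬ IsZero (G.top T) → ∃ k, Feynman.IsSum (fun _ : Unit => H k) G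

end

end Pool.Agent.Lib.MP_ae0f86_nt
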