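import Pool.Agent.Lib.MP_ae0f86_nt.F.Defs
import Pool.Agent.Lib.MP_ae0f86_nt.Basic

/-!
# MP_ae0f86_nt, project FEYNMAN: definitions used in the proof
-/

open CategoryTheory CategoryTheory.Limits MvPolynomial Opposite MonoidalCategory

universe v u

namespace Pool.Agent.Lib.MP_ae0f86_nt.F

noncomputable section

variable {k : Type} [Field k]

/-! ### flows -/

/-- The space of the rational flows, `H_1(G, ℚ)`. -/
def cycles (G : Feynman) : Submodule ℚ (G.E → ℚ) where
  carrier := {c | G.Conserved c}
  zero_mem' := fun v => by simp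
  add_mem' := fun {c c'} hc hc' v => by
    have h : ∀ (f : G.E → G.V), (∑ e, if f e = v then (c + c') e else 0) =
        (∑ e, if f e = v then c e else 0) + ∑ e, if f e = v then c' e else 0 := fun f => by
      rw [← Finset.sum_add_distrib]
      exact Finset.sum_congr rfl fun e _ => by split_ifs <;> simp
    rw [h, h, hc v, hc' v]
  smul_mem' := fun q c hc v => by
    have h : ∀ (f : G.E → G.V), (∑ e, if f e = v then (q • c) e else 0) =
        q * ∑ e, if f e = v then c e else 0 := fun f => by
      rw [Finset.mul_sum]
      exact Finset.sum_congr rfl fun e _ => by split_ifs <;> simp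
    rw [h, h, hc v]

theorem loops_eq (G : Feynman) : G.loops = Module.finrank ℚ (cycles G) := by
  have h : Submodule.span ℚ {c : G.E → ℚ | G.Conserved c} = cycles G :=
    Submodule.span_eq (cycles G)
  rw [Feynman.loops, h]

/-! ### chains -/

/-- A list of polynomials `l = [f_1, ..., f_m]` is a chain if for each `j` the gradient of `f_j`
at each common zero of `f_1, ..., f_j` is not in the span of the gradients of
`f_1, ..., f_{j-1}`; so all the `f_1 = ... = f_j = 0` are smooth complete intersections. -/
def Chain {ι : Type} (l : List (MvPolynomial ι k)) : Prop :=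
  ∀ (acc : List (MvPolynomial ι k)) (t : MvPolynomial ι k) (rest : List (MvPolynomial ι k)),
    l = acc ++ t :: rest → ∀ x ∈ zs acc, eval x t = 0 →
      grad x t ∉ Submodule.span k {v | ∃ f ∈ acc, v = grad x f}

/-- The gradients at `x` of the members of the list are linearly independent, in the form used in
the proofs: none is in the span of the previous ones. -/
def Reg {ι : Type} (l : List (MvPolynomial ι k)) (x : ι → k) : Prop :=
  ∀ (acc : List (MvPolynomial ι k)) (t : MvPolynomial ι k) (rest : List (MvPolynomial ι k)),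
    l = acc ++ t :: rest → grad x t ∉ Submodule.span k {v | ∃ f ∈ acc, v = grad x f}

/-- `zs l` is a smooth complete intersection in the open set `g ≠ 0`. -/
def SmoothOn {ι : Type} (l : List (MvPolynomial ι k)) (g : MvPolynomial ι k) : Prop :=
  ∀ x ∈ zs l, eval x g ≠ 0 → LinearIndependent k fun a : Fin l.length => grad x (l.get a)

/-- `l` is a chain relative to `g`: for each decomposition `l = acc ++ rest` the zero set of `acc`
is a smooth complete intersection in the open set where `g` and all members of `rest` are not
zero. -/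
def RChain {ι : Type} (l : List (MvPolynomial ι k)) (g : MvPolynomial ι k) : Prop :=
  ∀ acc rest : List (MvPolynomial ι k), l = acc ++ rest → ∀ x ∈ zs acc,
    eval x (rest.prod * g) ≠ 0 → Reg acc x

/-- The set `{(x, u) | x ∈ zs l, u g(x) = 1}`, isomorphic to the part `g ≠ 0` of `zs l`. -/
def us {ι : Type} (l : List (MvPolynomial ι k)) (g : MvPolynomial ι k) : Set (ι ⊕ Unit → k) :=
  {z | z ∘ Sum.inl ∈ zs l ∧ z (Sum.inr ()) * eval (z ∘ Sum.inl) g = 1}

/-- The equations of `us l g`. -/
def ul {ι : Type} (l : List (MvPolynomial ι k)) (g : MvPolynomial ι k) :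
    List (MvPolynomial (ι ⊕ Unit) k) :=
  l.map (rename Sum.inl) ++ [MvPolynomial.X (Sum.inr ()) * rename Sum.inl g - 1]

theorem us_eq {ι : Type} (l : List (MvPolynomial ι k)) (g : MvPolynomial ι k) :
    us l g = zs (ul l g) := by
  ext z
  simp only [us, zs, ul, Set.mem_ofPred_eq, List.mem_append, List.mem_map, List.mem_singleton]
  constructor
  · rintro ⟨h1, h2⟩ f (⟨f, hf, rfl⟩ | rfl)
    · rw [eval_rename]; exact h1 f hf
    · simp [eval_rename, h2]
  · intro h
    refine ⟨fun f hf => ?_, ?_⟩
    · have := h _ (Or.inl ⟨f, hf, rfl⟩)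
      rwa [eval_rename] at this
    · have := h _ (Or.inr rfl)
      simpa [eval_rename, sub_eq_zero] using this

theorem us_alg {ι : Type} (l : List (MvPolynomial ι k)) (g : MvPolynomial ι k) :
    IsAlg (us l g) := by
  rw [us_eq]; exact zs_alg _

/-- `X` and `Y` are isomorphic algebraic sets. -/
def Iso {ι κ : Type} [Finite ι] [Finite κ] {X : Set (ι → k)} {Y : Set (κ → k)} (hX : IsAlg X)
    (hY : IsAlg Y) : Prop :=
  Nonempty (AffPair.abs hX ≅ AffPair.abs hY)

/-- The list of the equations of a list of walls. -/
def wl {Λ : Type} (k : Type) [Field k] (S : List (Wall Λ)) : List (MvPolynomial Λ k) :=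
  S.map fun c => c.poly k

/-- Integral polynomials, over `k`. -/
def zl' {ι : Type} (k : Type) [Field k] (l : List (MvPolynomial ι ℤ)) :
    List (MvPolynomial ι k) :=
  l.map (MvPolynomial.map (Int.castRingHom k))

/-- A straight line program: a list of walls in the variables `σ ⊕ κ` which is a chain, and whose
zero set is `y_j = w_j(x)`. -/
structure IsProg (k : Type) [Field k] {σ κ : Type} (S : List (Wall (σ ⊕ κ)))
    (w : κ → MvPolynomial σ ℤ) : Prop where
  chain : Chain (wl k S)
  zero : ∀ z : σ ⊕ κ → k, z ∈ zs (wl k S) ↔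
    ∀ j, z (Sum.inr j) = eval (z ∘ Sum.inl) (MvPolynomial.map (Int.castRingHom k) (w j))
  length : S.length = Nat.card κ

/-! ### wires -/

/-- The polar form of the square. -/
abbrev bl {R : Type} [CommRing R] (x y : Fin 4 → R) : R :=
  x 0 * y 1 + x 1 * y 0 + x 2 * y 3 + x 3 * y 2

/-- The data of a wire: an isotropic vector `n`, and two isotropic vectors `a`, `b` with
`⟨a, b⟩ = 1` which are orthogonal to `n`; `r` is a coordinate with `n_r = 1`. -/
structure IsWire {R : Type} [CommRing R] (n a b : Fin 4 → R) (r : Fin 4) : Prop where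
  sqn : sq n = 0
  sqa : sq a = 0
  sqb : sq b = 0
  bna : bl n a = 0
  bnb : bl n b = 0
  bab : bl a b = 1
  nr : n r = 1
  perp : ∀ x : Fin 4 → R, bl x n = 0 →
    ∃ α β γ : R, ∀ i, x i = α * n i + β * a i + γ * b i

/-- The momenta added in the four edges of a wire: `a`, `a + n`, `-b`, and `0` or `a - b`. -/
def wsh {R : Type} [CommRing R] (f : Bool) (n a b : Fin 4 → R) (i : Fin 4) : Fin 4 → R :=
  if i = 0 then a else if i = 1 then fun j => a j + n j else if i = 2 then fun j => -b j
    else if f then fun _ => 0 else fun j => a j - b j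

/-- The polynomial `(x_w + p)^2` in the coordinates `(w, i)`. -/
def prop {W : Type} (w : W) (p : Fin 4 → k) : MvPolynomial (W × Fin 4) k :=
  sq (fun i => MvPolynomial.X (w, i) + MvPolynomial.C (p i))

/-- The four propagators of a wire. -/
def wireProp {W : Type} (f : Bool) (n a b : W → Fin 4 → k) (w : W) (i : Fin 4) :
    MvPolynomial (W × Fin 4) k :=
  prop w (wsh f (n w) (a w) (b w) i)

/-- The list of the first three propagators of the wires in the list `ws`. -/
def wireList {W : Type} (n a b : W → Fin 4 → k) (ws : List W) :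
    List (MvPolynomial (W × Fin 4) k) :=
  ws.flatMap fun w => [wireProp false n a b w 0, wireProp false n a b w 1,
    wireProp false n a b w 2]

end

end Pool.Agent.Lib.MP_ae0f86_nt.F
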